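import Pool.Agent.helper98.RPQ.SpecR
import Pool.Agent.helper62.RS.All
import Pool.Agent.helper64.MS.STB

set_option autoImplicit false

open scoped MatrixGroups ContDiff Topology UpperHalfPlane ComplexConjugate ENNReal
open UpperHalfPlane MeasureTheory Filter Set

namespace Pool.Agent.RPQ

open Pool.Agent.RS
open Pool.Agent.MS (BA BB st pf gk Dk amk)

theorem PRB_fin (L n : ℕ) : (AdL L n).Finite := by
  have h1 : ({b : List (Fin n) | b.length = L}).Finite := List.finite_length_eq (Fin n) L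
  refine (h1.image (fun b => b.map (fun x : Fin n => 9 * (x : ℕ) + 8))).subset ?_
  rintro l ⟨b, hb, hx, rfl⟩
  refine ⟨b.pmap (fun x hx => (⟨x, hx⟩ : Fin n)) hx, ?_, ?_⟩
  · simp only [Set.mem_ofPred_eq, List.length_pmap]
    exact hb
  · show List.map (fun x : Fin n => 9 * (x : ℕ) + 8) (b.pmap (fun x hx => (⟨x, hx⟩ : Fin n)) hx) =
      b.map (fun x => 9 * x + 8)
    rw [List.map_pmap]
    exact List.pmap_eq_map (f := fun x : ℕ => 9 * x + 8) hx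

theorem PRB_AdL {L n : ℕ} {l : List ℕ} (hl : l ∈ AdL L n) :
    l.length = L ∧ (∀ k ∈ l, 9 ≤ k + 1) ∧ (l.map (fun k => k + 1)).sum ≤ 9 * n * L := by
  obtain ⟨b, hb, hx, rfl⟩ := hl
  refine ⟨by rw [List.length_map, hb], ?_, ?_⟩
  · intro k hk
    obtain ⟨x, -, rfl⟩ := List.mem_map.1 hk
    omega
  · have h1 : ∀ y ∈ (b.map (fun x => 9 * x + 8)).map (fun k => k + 1), y ≤ 9 * n := by
      intro y hy
      rw [List.map_map] at hy
      obtain ⟨x, hxb, rfl⟩ := List.mem_map.1 hy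
      have := hx x hxb
      simp only [Function.comp_apply]
      omega
    have h2 := List.sum_le_card_nsmul _ _ h1
    rw [List.length_map, List.length_map, hb, smul_eq_mul] at h2
    calc _ ≤ L * (9 * n) := h2
      _ = 9 * n * L := by ring

/-- large deviations, uniformly for a finite set -/
theorem PRB_ldv (hLDV : LDV_stmt) {Γ : Subgroup SL(2, ℝ)} {F : Set ℍ} (hΓ : QU.SurfaceGroup Γ) (hF : QU.NiceDom Γ F)
    (e : ℝ) (he : 0 < e) (S : Finset (ℍ → ℝ)) (hS : ∀ h ∈ S, QU.Inv Γ h ∧ ∀ z, 0 ≤ h z ∧ h z ≤ 1) :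
    ∃ θ C : ℝ, 0 < θ ∧ 0 < C ∧ ∀ h ∈ S, ∀ T : ℝ, 0 < T → MeasurableSet (FB F h e T) ∧
      (∀ (γ : Γ) (g : SL(2, ℝ)), (γ : SL(2, ℝ)) * g ∈ FB F h e T ↔ g ∈ FB F h e T) ∧
      mG (dG F ∩ FB F h e T) ≤ ENNReal.ofReal (C * Real.exp (-(θ * T))) := by
  classical
  induction S using Finset.induction_on with
  | empty => exact ⟨1, 1, one_pos, one_pos, fun h hh => absurd hh (Finset.notMem_empty h)⟩
  | insert h0 S hh0 ih =>
    obtain ⟨θ, C, hθ, hC, h1⟩ := ih (fun h hh => hS h (Finset.mem_insert_of_mem hh))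
    obtain ⟨θ', C', hθ', hC', h2⟩ := hLDV Γ F h0 e hΓ hF (hS h0 (Finset.mem_insert_self _ _)).1
      (hS h0 (Finset.mem_insert_self _ _)).2 he
    have hmono : ∀ (c t : ℝ) (T : ℝ), 0 < T → c ≤ max C C' → min θ θ' ≤ t → 0 < c →
        c * Real.exp (-(t * T)) ≤ max C C' * Real.exp (-(min θ θ' * T)) := by
      intro c t T hT hc ht hc0
      refine mul_le_mul hc ?_ (Real.exp_pos _).le (hc0.le.trans hc)
      apply Real.exp_le_exp.2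
      have := mul_le_mul_of_nonneg_right ht hT.le
      linarith
    refine ⟨min θ θ', max C C', lt_min hθ hθ', lt_max_of_lt_left hC, ?_⟩
    intro h hh T hT
    rcases Finset.mem_insert.1 hh with rfl | hh
    · obtain ⟨a1, a2, a3⟩ := h2 T hT
      exact ⟨a1, a2, a3.trans (ENNReal.ofReal_le_ofReal (hmono C' θ' T hT (le_max_right _ _) (min_le_right _ _) hC'))⟩
    · obtain ⟨a1, a2, a3⟩ := h1 h hh T hT
      exact ⟨a1, a2, a3.trans (ENNReal.ofReal_le_ofReal (hmono C θ T hT (le_max_left _ _) (min_le_left _ _) hC))⟩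

theorem PRB_bd (hMOM : MOM_stmt) {Γ : Subgroup SL(2, ℝ)} {κ : ℝ → ℝ} {ρ C0 : ℝ} {V : ℍ → ℝ} (hκ : MO κ) (hρ : 0 < ρ)
    (hV : Mol Γ κ ρ C0 V) : ∀ z, |V z| ≤ C0 := by
  obtain ⟨V0, hV0, hb, he⟩ := hV
  intro z
  rw [he z]
  exact (hMOM.2 κ hκ ρ hρ).2.2 V0 C0 hV0.1 hb z

theorem PRB_inv {Γ : Subgroup SL(2, ℝ)} {J : ℕ} {χ : Fin J → ℍ → ℝ} (hχ : ∀ j, QU.Inv Γ (χ j)) (ξ : Fin J → ℝ) :
    QU.Inv Γ (VV χ ξ) := by
  constructor
  · unfold VV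
    exact continuous_finsetSum _ fun j _ => continuous_const.mul (hχ j).1
  · intro γ z
    unfold VV
    exact Finset.sum_congr rfl fun j _ => by rw [(hχ j).2 γ z]

theorem PRB_quasi {Γ : Subgroup SL(2, ℝ)} {κ : ℝ → ℝ} {C0 A a R ρ ϵ μ : ℝ} {J : ℕ} {p : Fin J → ℍ}
    {χ : Fin J → ℍ → ℝ} {ξ : Fin J → ℝ} {φ : ℍ → ℂ} (hA : 1 ≤ A) (ha : 1 ≤ a) (hlog : 4 ≤ Real.log R) (hR : 0 < R)
    (h1 : (Real.log R) ^ (-(2 * a + 2)) / 2 ≤ ρ) (h2 : ρ ≤ (Real.log R) ^ (-(2 * a + 2)))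
    (h3 : 16 / (ρ * R) ≤ ϵ) (h4 : ϵ ≤ (Real.log R) ^ A / (ρ * R)) (hN : Net Γ κ ρ C0 J p χ) (hξ : ξ ∈ cube J)
    (hμ : 0 < μ) (hμ1 : |Real.sqrt μ - R| ≤ R ^ (-(1 / 100) : ℝ)) (hC : CEig Γ (fun z => ϵ * VV χ ξ z) μ φ) :
    Quasi Γ κ C0 (2 * a + 3 + A) R ρ ϵ μ (VV χ ξ) φ := by
  have hl0 : 0 < Real.log R := by linarith
  have hl1 : 1 ≤ Real.log R := by linarith
  have hp : 0 < (Real.log R) ^ (-(2 * a + 2)) := Real.rpow_pos_of_pos hl0 _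
  have hρ : 0 < ρ := lt_of_lt_of_le (by positivity) h1
  refine ⟨hN.mol ξ hξ, PRB_inv hN.inv ξ, ?_, ?_, ?_, ?_, hμ, hμ1, hC⟩
  · -- rho0
    have e1 : (Real.log R) ^ (-(2 * a + 3 + A)) = (Real.log R) ^ (-(2 * a + 2)) * (Real.log R) ^ (-(1 + A)) := by
      rw [← Real.rpow_add hl0]
      congr 1
      ring
    have e2 : (Real.log R) ^ (-(1 + A)) ≤ 1 / 2 := by
      have e3 : (Real.log R) ^ (-(1 + A)) ≤ (Real.log R) ^ (-1 : ℝ) :=
        Real.rpow_le_rpow_of_exponent_le hl1 (by linarith)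
      rw [Real.rpow_neg_one] at e3
      refine e3.trans ?_
      rw [inv_le_comm₀ hl0 (by norm_num)]
      linarith
    rw [e1]
    refine le_trans ?_ h1
    have := mul_le_mul_of_nonneg_left e2 hp.le
    linarith
  · -- rho1
    have e3 : (Real.log R) ^ (-(2 * a + 2)) ≤ (Real.log R) ^ (-2 : ℝ) :=
      Real.rpow_le_rpow_of_exponent_le hl1 (by linarith)
    have e4 : (Real.log R) ^ (-2 : ℝ) ≤ 1 / 8 := by
      rw [Real.rpow_neg hl0.le, Real.rpow_ofNat]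
      rw [inv_le_comm₀ (by positivity) (by norm_num)]
      nlinarith
    linarith
  · -- eps0
    refine le_trans ?_ h3
    positivity
  · -- eps1
    refine h4.trans ?_
    rw [div_le_div_iff₀ (by positivity) hR]
    have e1 : (Real.log R) ^ (2 * a + 3 + A) = (Real.log R) ^ A * (Real.log R) ^ (2 * a + 2) * Real.log R := by
      rw [← Real.rpow_add hl0, ← Real.rpow_add_one hl0.ne']
      congr 1
      ring
    have e5 : 0 < (Real.log R) ^ (2 * a + 2) := Real.rpow_pos_of_pos hl0 _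
    have e6 : 1 / 2 ≤ (Real.log R) ^ (2 * a + 2) * ρ := by
      rw [Real.rpow_neg hl0.le] at h1
      have := mul_le_mul_of_nonneg_left h1 e5.le
      rw [← mul_div_assoc, mul_inv_cancel₀ e5.ne'] at this
      exact this
    have e7 : 0 < (Real.log R) ^ A := Real.rpow_pos_of_pos hl0 _
    rw [e1]
    have e8 : 1 ≤ (Real.log R) ^ (2 * a + 2) * ρ * Real.log R := by nlinarith
    calc (Real.log R) ^ A * R = (Real.log R) ^ A * R * 1 := by ring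
      _ ≤ (Real.log R) ^ A * R * ((Real.log R) ^ (2 * a + 2) * ρ * Real.log R) :=
        mul_le_mul_of_nonneg_left e8 (by positivity)
      _ = _ := by ring

theorem PRB_det (hMOM : MOM_stmt) {Γ : Subgroup SL(2, ℝ)} (hΓ : QU.SurfaceGroup Γ) {κ : ℝ → ℝ} (hκ : MO κ)
    {Cm : ℝ} (hCm : 1 ≤ Cm)
    (hMFC : ∀ (F : Set ℍ) (f : ℍ → ℝ) (D e δ c : ℝ) (h h' : ℍ → ℝ) (φ : ℍ → ℂ), QU.NiceDom Γ F → QU.Inv Γ f → QU.Inv Γ h → QU.Inv Γ h' → InvC Γ φ → 1 ≤ D → 0 ≤ e → 0 ≤ δ → δ ≤ 1 →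
      (∀ z, |f z| ≤ δ) → (∀ z, 0 ≤ h' z ∧ h' z ≤ 1) → (∀ z, |(h z - c) / D - h' z| ≤ e) → |(∫ z in F, h' z * ‖φ z‖ ^ 2) - mean F h' * nn F φ| ≤ e * nn F φ →
      |(∫ z in F, h z * ‖φ z‖ ^ 2 * Real.exp (f z)) - (∫ z in F, h z * Real.exp (f z)) / (∫ z in F, Real.exp (f z)) * ∫ z in F, ‖φ z‖ ^ 2 * Real.exp (f z)| ≤
        Cm * D * (e + δ) * ∫ z in F, ‖φ z‖ ^ 2 * Real.exp (f z))
    {D : ℝ} (hD : 1 ≤ D) {e ε : ℝ} (he : 0 < e) (he1 : e ≤ 1) (heε : 100 * Cm * D * e ≤ ε) {S : Finset (ℍ → ℝ)}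
    (hS : ∀ h ∈ S, QU.Inv Γ h ∧ ∀ z, 0 ≤ h z ∧ h z ≤ 1)
    (hS' : ∀ h : ℍ → ℝ, QU.Inv Γ h → (∀ z w, |h z - h w| ≤ dist z w) → ∃ (c : ℝ), ∃ h' ∈ S, ∀ z, |(h z - c) / D - h' z| ≤ e)
    {F0 F : Set ℍ} (hF0 : QU.NiceDom Γ F0) (hF : QU.NiceDom Γ F) {ρ C0 ϵ μ : ℝ} {V : ℍ → ℝ} {φ : ℍ → ℂ}
    (hρ : 0 < ρ) (hϵ : 0 ≤ ϵ) (hϵ1 : ϵ * C0 ≤ e) (hC0 : 0 ≤ C0) (hV : Mol Γ κ ρ C0 V) (hVi : QU.Inv Γ V)
    (hφ : CEig Γ (fun z => ϵ * V z) μ φ)
    (hdet : ∀ h' ∈ S, |(∫ z in F0, h' z * ‖φ z‖ ^ 2) - mean F0 h' * nn F0 φ| ≤ 11 * e * nn F0 φ) :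
    Eqd Γ F (fun z => ϵ * V z) ε φ := by
  intro h hh hlip
  obtain ⟨c, h', hh'S, hc⟩ := hS' h hh hlip
  obtain ⟨-, hfd, -, -, -, -⟩ := QU.A_DOB Γ F hΓ hF
  obtain ⟨-, -, -, -, hsame, -⟩ := QU.A_DOB Γ F0 hΓ hF0
  obtain ⟨hvol, hint⟩ := hsame F hfd
  have hφc : InvC Γ φ := ⟨INB_cont φ hφ.1, hφ.2.1⟩
  have hh' := hS h' hh'S
  have i1 : ∫ z in F, h' z * ‖φ z‖ ^ 2 = ∫ z in F0, h' z * ‖φ z‖ ^ 2 := by
    apply hint
    intro γ z
    rw [hh'.1.2 γ z, hφc.2 γ z]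
  have i2 : nn F φ = nn F0 φ := by
    unfold nn
    apply hint (fun z => ‖φ z‖ ^ 2)
    intro γ z
    rw [hφc.2 γ z]
  have i3 : mean F h' = mean F0 h' := by
    unfold mean
    rw [hvol, hint h' (fun γ z => hh'.1.2 γ z)]
  have h1 : |(∫ z in F, h' z * ‖φ z‖ ^ 2) - mean F h' * nn F φ| ≤ 11 * e * nn F φ := by
    rw [i1, i2, i3]
    exact hdet h' hh'S
  have hfi : QU.Inv Γ (fun z => ϵ * V z) := ⟨continuous_const.mul hVi.1, fun γ z => by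
    show ϵ * V (γ • z) = ϵ * V z
    rw [hVi.2 γ z]⟩
  have hfb : ∀ z, |ϵ * V z| ≤ ϵ * C0 := by
    intro z
    rw [abs_mul, abs_of_nonneg hϵ]
    exact mul_le_mul_of_nonneg_left (PRB_bd hMOM hκ hρ hV z) hϵ
  have h2 := hMFC F (fun z => ϵ * V z) D (11 * e) (ϵ * C0) c h h' φ hF hfi hh hh'.1 hφc hD (by positivity)
    (mul_nonneg hϵ hC0) (hϵ1.trans he1) hfb hh'.2 (fun z => (hc z).trans (by linarith)) h1
  refine h2.trans ?_
  have h3 : 0 ≤ ∫ z in F, ‖φ z‖ ^ 2 * Real.exp (ϵ * V z) := integral_nonneg fun z => by positivity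
  refine mul_le_mul_of_nonneg_right ?_ h3
  have h4 : Cm * D * (11 * e + ϵ * C0) ≤ Cm * D * (12 * e) := by
    refine mul_le_mul_of_nonneg_left (by linarith) (by positivity)
  have h5 : 0 ≤ Cm * D * e := by positivity
  nlinarith

/-- Markov's inequality for one word and one function -/
theorem PRB_markov (J : ℕ) (G : (Fin J → ℝ) → ENNReal) (hG : Measurable G) (δ0 x : ℝ) (hδ0 : 0 < δ0)
    (hx : ∫⁻ ξ in cube J, G ξ ≤ ENNReal.ofReal x * volume (cube J)) (hcube : MeasurableSet (cube J)) :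
    volume {ξ : Fin J → ℝ | ξ ∈ cube J ∧ ¬ G ξ ≤ ENNReal.ofReal (δ0 ^ 2)} ≤
      ENNReal.ofReal (x / δ0 ^ 2) * volume (cube J) := by
  have h0 : ENNReal.ofReal (δ0 ^ 2) ≠ 0 := by
    rw [Ne, ENNReal.ofReal_eq_zero, not_le]
    positivity
  have h1 := meas_ge_le_lintegral_div (μ := volume.restrict (cube J)) hG.aemeasurable h0 ENNReal.ofReal_ne_top
  have h2 : volume {ξ : Fin J → ℝ | ξ ∈ cube J ∧ ¬ G ξ ≤ ENNReal.ofReal (δ0 ^ 2)} ≤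
      (volume.restrict (cube J)) {ξ | ENNReal.ofReal (δ0 ^ 2) ≤ G ξ} := by
    rw [Measure.restrict_apply' hcube]
    apply measure_mono
    rintro ξ ⟨ha, hb⟩
    exact ⟨(not_le.1 hb).le, ha⟩
  refine h2.trans (h1.trans ?_)
  refine (ENNReal.div_le_div_right hx _).trans ?_
  rw [ENNReal.ofReal_div_of_pos (by positivity), ENNReal.div_eq_inv_mul, ENNReal.div_eq_inv_mul, mul_assoc]

theorem PRB_cube (J : ℕ) : MeasurableSet (cube J) := by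
  have h1 : cube J = Set.pi Set.univ fun _ : Fin J => Icc (-1 : ℝ) 1 := by
    ext ξ
    simp only [cube, Set.mem_pi, Set.mem_univ, forall_true_left, Set.mem_Icc, abs_le, Set.mem_ofPred_eq]
  rw [h1]
  exact MeasurableSet.univ_pi fun _ => measurableSet_Icc

theorem PRB_exR {P : (ℍ → ℝ) → ℝ → Prop} (S : Finset (ℍ → ℝ)) (h : ∀ h ∈ S, ∃ R0 : ℝ, ∀ R, R0 ≤ R → P h R) :
    ∃ R0 : ℝ, ∀ h ∈ S, ∀ R, R0 ≤ R → P h R := by
  classical
  induction S using Finset.induction_on with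
  | empty => exact ⟨0, fun h hh => absurd hh (Finset.notMem_empty h)⟩
  | insert h0 S hh0 ih =>
    obtain ⟨R1, h1⟩ := ih (fun h' hh => h h' (Finset.mem_insert_of_mem hh))
    obtain ⟨R2, h2⟩ := h h0 (Finset.mem_insert_self _ _)
    refine ⟨max R1 R2, ?_⟩
    intro h' hh R hR
    rcases Finset.mem_insert.1 hh with rfl | hh
    · exact h2 R ((le_max_right _ _).trans hR)
    · exact h1 h' hh R ((le_max_left _ _).trans hR)

theorem PRB_proof (hDET : DET_stmt) (hWEX : WEX_stmt) (hLDV : LDV_stmt) (hLNT : LNT_stmt) (hMFC : MFC_stmt) (hMOM : MOM_stmt) (hMEX : MEX_stmt) (hUTM : UTM_stmt) : PRB_stmt := by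
  classical
  intro Γ κ C0 ε B A hΓ hκ hC0 hε hB hA
  obtain ⟨D, hD1, hLNT'⟩ := hLNT Γ hΓ
  obtain ⟨Cm, hCm1, hMFC'⟩ := hMFC Γ hΓ
  obtain ⟨F0, hF0⟩ := QU.A_DOM Γ hΓ
  obtain ⟨⟨α, hα⟩, ⟨β, hβ⟩⟩ := Pool.Agent.MS.STB_proof.2.2.2.2.2 (1 / 8) (by norm_num)
  have hCD : 0 < 100 * Cm * D := by positivity
  obtain ⟨e, he, he1, heε⟩ : ∃ e : ℝ, 0 < e ∧ e ≤ 1 ∧ 100 * Cm * D * e ≤ ε := by
    refine ⟨min 1 (ε / (100 * Cm * D)), lt_min one_pos (by positivity), min_le_left _ _, ?_⟩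
    calc 100 * Cm * D * min 1 (ε / (100 * Cm * D)) ≤ 100 * Cm * D * (ε / (100 * Cm * D)) :=
        mul_le_mul_of_nonneg_left (min_le_right _ _) hCD.le
      _ = ε := by field_simp
  obtain ⟨S, hS, hS'⟩ := hLNT' e he
  obtain ⟨θ, C1, hθ, hC1, hldv⟩ := PRB_ldv hLDV hΓ hF0 e he S hS
  -- L and n
  obtain ⟨L, hL⟩ := exists_nat_ge (8 * (B + 5) / θ + 1)
  have hL1 : 1 ≤ L := by
    have : (1 : ℝ) ≤ L := le_trans (by have : 0 ≤ 8 * (B + 5) / θ := by positivity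
                                       linarith) hL
    exact_mod_cast this
  have hBL : B + 5 ≤ (L + 1) * θ / 8 := by
    have h1 : 8 * (B + 5) / θ ≤ L + 1 := by linarith
    rw [div_le_iff₀ hθ] at h1
    linarith
  obtain ⟨n, hn⟩ := exists_nat_ge (2 * (2 * L + 1) / e + 1)
  have hn1 : 1 ≤ n := by
    have : (1 : ℝ) ≤ n := le_trans (by have : 0 ≤ 2 * (2 * (L : ℝ) + 1) / e := by positivity
                                       linarith) hn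
    exact_mod_cast this
  have hn0 : (0 : ℝ) < n := by exact_mod_cast hn1
  have hne : 2 * ((2 * L + 1) / n) + 10 * e ≤ 11 * e := by
    have h1 : 2 * (2 * (L : ℝ) + 1) / e ≤ n := by linarith
    rw [div_le_iff₀ he] at h1
    have h2 : 2 * ((2 * (L : ℝ) + 1) / n) ≤ e := by
      rw [← mul_div_assoc, div_le_iff₀ hn0]
      linarith
    linarith
  obtain ⟨η, ε', C2, hη, hη', hε', hε'', hC2, hW⟩ := hWEX Γ F0 α β κ C0 B θ C1 L (9 * n * L) hΓ hF0 hα hβ hκ hB hθ hC1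
    hL1 hBL
  obtain ⟨C3, R3, hC3, hR3, hU⟩ := hUTM α β hα hβ η ε' hη hη' hε' hε''
  obtain ⟨C4, δ0, hC4, hδ0, hDt⟩ := hDET Γ F0 α β κ C0 η ε' hΓ hF0 hα hβ hκ hC0 hη hη' hε' hε'' L n e hL1 hn1 he he1
  obtain ⟨C, hCC2, hCC3, hCC4⟩ : ∃ C : ℝ, C2 ≤ C ∧ C3 ≤ C ∧ C4 ≤ C :=
    ⟨max C2 (max C3 C4), le_max_left _ _, (le_max_left _ _).trans (le_max_right _ _),
      (le_max_right _ _).trans (le_max_right _ _)⟩
  obtain ⟨a, R1, ha, hR1, hW'⟩ := hW C hCC2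
  have ha' : 0 ≤ 2 * a + 3 + A := by linarith
  have hdetS : ∃ R4 : ℝ, ∀ h ∈ S, ∀ R, R4 ≤ R → ∀ (ρ ϵ μ : ℝ) (V : ℍ → ℝ) (φ : ℍ → ℂ),
      Quasi Γ κ C0 (2 * a + 3 + A) R ρ ϵ μ V φ →
      (∀ l ∈ AdL L n, WS Γ F0 (wdK V (R * ϵ / 2) (tau R) (ut β α C η ε' R) (FB F0 h e (tau R)) l) δ0) →
        |(∫ z in F0, h z * ‖φ z‖ ^ 2) - mean F0 h * nn F0 φ| ≤ (2 * ((2 * L + 1) / n) + 10 * e) * nn F0 φ := by
    refine PRB_exR S ?_
    intro h hh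
    obtain ⟨R0, -, hR0⟩ := hDt C (2 * a + 3 + A) hCC4 ha' h (hS h hh).1 (hS h hh).2
    exact ⟨R0, fun R hR ρ ϵ μ V φ => hR0 R ρ ϵ μ V φ hR⟩
  obtain ⟨R4, hR4⟩ := hdetS
  -- the perturbation is small
  obtain ⟨R5, hR5⟩ : ∃ R5 : ℝ, ∀ R, R5 ≤ R → (Real.log R) ^ (2 * a + 3 + A) / R * C0 ≤ e := by
    have h1 : Tendsto (fun R : ℝ => (Real.log R) ^ (2 * a + 3 + A) / R * C0) atTop (𝓝 (0 * C0)) := by
      refine Tendsto.mul_const _ ?_
      have h2 := isLittleO_log_rpow_rpow_atTop (2 * a + 3 + A) (s := 1) one_pos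
      have h3 := h2.tendsto_div_nhds_zero
      refine h3.congr fun R => ?_
      rw [Real.rpow_one]
    rw [zero_mul] at h1
    have h2 := h1.eventually (eventually_le_nhds he)
    obtain ⟨R5, hR5⟩ := eventually_atTop.1 h2
    exact ⟨R5, hR5⟩
  obtain ⟨Ad, hAd⟩ : ∃ Ad : Finset (List ℕ), ∀ l, l ∈ Ad ↔ l ∈ AdL L n :=
    ⟨(PRB_fin L n).toFinset, fun l => (PRB_fin L n).mem_toFinset⟩
  obtain ⟨R0, hRa, hRb, hRc, hRd, hRe, hRf⟩ : ∃ R0 : ℝ, R1 ≤ R0 ∧ R3 ≤ R0 ∧ R4 ≤ R0 ∧ R5 ≤ R0 ∧ Real.exp 4 ≤ R0 ∧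
      (S.card : ℝ) * Ad.card / δ0 ^ 2 ≤ R0 := by
    refine ⟨max R1 (max R3 (max R4 (max R5 (max (Real.exp 4) ((S.card : ℝ) * Ad.card / δ0 ^ 2))))), ?_, ?_, ?_, ?_, ?_, ?_⟩
    · exact le_max_left _ _
    · exact (le_max_left _ _).trans (le_max_right _ _)
    · exact ((le_max_left _ _).trans (le_max_right _ _)).trans (le_max_right _ _)
    · exact (((le_max_left _ _).trans (le_max_right _ _)).trans (le_max_right _ _)).trans (le_max_right _ _)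
    · exact ((((le_max_left _ _).trans (le_max_right _ _)).trans (le_max_right _ _)).trans (le_max_right _ _)).trans
        (le_max_right _ _)
    · exact ((((le_max_right _ _).trans (le_max_right _ _)).trans (le_max_right _ _)).trans (le_max_right _ _)).trans
        (le_max_right _ _)
  refine ⟨a, R0, ha, hR1.trans hRa, ?_⟩
  intro R ρ ϵ J p χ hR hρ1 hρ2 hϵ1 hϵ2 hN
  have hRpos : 0 < R := lt_of_lt_of_le (by linarith [hR1.trans hRa]) hR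
  have hlog : 4 ≤ Real.log R := by
    rw [Real.le_log_iff_exp_le hRpos]
    exact hRe.trans hR
  have hl0 : 0 < Real.log R := by linarith
  have hρ : 0 < ρ := lt_of_lt_of_le (by have := Real.rpow_pos_of_pos hl0 (-(2 * a + 2)); positivity) hρ1
  have hϵ0 : 0 ≤ ϵ := le_trans (by positivity) hϵ1
  have hK : 8 / ρ ≤ R * ϵ / 2 := by
    have h1 := mul_le_mul_of_nonneg_left hϵ1 (by positivity : (0 : ℝ) ≤ R / 2)
    have h2 : R / 2 * (16 / (ρ * R)) = 8 / ρ := by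
      field_simp
      norm_num
    rw [h2] at h1
    linarith
  have hT : 0 < tau R := by
    unfold tau
    positivity
  have hexp : ∀ C : ℝ, C * Real.exp (-(θ * tau R)) = C * R ^ (-(θ / 8)) := by
    intro C
    rw [Real.rpow_def_of_pos hRpos]
    congr 2
    unfold tau
    ring
  -- the function of xi
  set G : (ℍ → ℝ) → List ℕ → (Fin J → ℝ) → ENNReal := fun h l ξ =>
    ∫⁻ g in dG F0, ∫⁻ h' in dG F0, ‖perK Γ (wdK (VV χ ξ) (R * ϵ / 2) (tau R) (ut β α C η ε' R) (FB F0 h e (tau R)) l) g h'‖ₑ ^ 2 ∂mG ∂mG with hG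
  obtain ⟨hum, hmm, hul⟩ := hU C R hCC3 (hRb.trans hR)
  have huB : ∃ Bd : ℝ, ∀ b, ‖ut β α C η ε' R b‖ ≤ Bd := by
    refine ⟨C * R ^ (15 / 16 + η), fun b => ?_⟩
    have h1 : 0 ≤ C * R ^ (15 / 16 + η) := by
      have : 0 ≤ C := by linarith
      positivity
    have h2 := hul b
    by_cases hb : b ∈ Bx C η ε' R
    · unfold mj at h2
      rw [Set.indicator_of_mem hb, ← ofReal_norm, ENNReal.ofReal_le_ofReal_iff h1] at h2
      exact h2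
    · unfold ut
      rw [Set.indicator_of_notMem hb, norm_zero]
      exact h1
  have huD : ∃ Dd : ℝ, ∀ b, ut β α C η ε' R b ≠ 0 → ∀ i j, |b.1 i j| ≤ Dd := by
    refine ⟨3, fun b hb => ?_⟩
    by_cases hb' : b ∈ Bx C η ε' R
    · exact hb'.1
    · exact absurd (by unfold ut; exact Set.indicator_of_notMem hb' _) hb
  have hmeasure : ∀ h ∈ S, ∀ l ∈ Ad, volume {ξ : Fin J → ℝ | ξ ∈ cube J ∧ ¬ G h l ξ ≤ ENNReal.ofReal (δ0 ^ 2)} ≤
      ENNReal.ofReal (R ^ (-(B + 3)) / δ0 ^ 2) * volume (cube J) := by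
    intro h hh l hl
    obtain ⟨a1, a2, a3⟩ := hldv h hh (tau R) hT
    obtain ⟨b1, b2, b3⟩ := PRB_AdL ((hAd l).1 hl)
    refine PRB_markov J (G h l) ?_ δ0 _ hδ0 ?_ (PRB_cube J)
    · exact hMEX Γ F0 (R * ϵ / 2) (tau R) (ut β α C η ε' R) (FB F0 h e (tau R)) l J χ hΓ hF0 hN.inv hum huB huD a1 a2
    · rw [hexp] at a3
      exact hW' R ρ (R * ϵ / 2) J p χ (FB F0 h e (tau R)) l (hRa.trans hR) hρ1 hρ2 hK hN a1 a2 a3 b1 b2 b3
  -- the bad set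
  have hsub : {ξ : Fin J → ℝ | ξ ∈ cube J ∧ ¬ ∀ (F : Set ℍ) (μ : ℝ) (φ : ℍ → ℂ), QU.NiceDom Γ F → 0 < μ →
      |Real.sqrt μ - R| ≤ R ^ (-(1 / 100) : ℝ) → CEig Γ (fun z => ϵ * VV χ ξ z) μ φ →
        Eqd Γ F (fun z => ϵ * VV χ ξ z) ε φ} ⊆
      ⋃ h ∈ S, ⋃ l ∈ Ad, {ξ : Fin J → ℝ | ξ ∈ cube J ∧ ¬ G h l ξ ≤ ENNReal.ofReal (δ0 ^ 2)} := by
    rintro ξ ⟨hξ, hbad⟩
    by_contra hcon
    apply hbad
    have hws : ∀ h ∈ S, ∀ l ∈ AdL L n, G h l ξ ≤ ENNReal.ofReal (δ0 ^ 2) := by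
      intro h hh l hl
      by_contra h1
      exact hcon (Set.mem_biUnion hh (Set.mem_biUnion ((hAd l).2 hl) ⟨hξ, h1⟩))
    intro F μ φ hF hμ hμ1 hφ
    have hq := PRB_quasi hA ha hlog hRpos hρ1 hρ2 hϵ1 hϵ2 hN hξ hμ hμ1 hφ
    refine PRB_det hMOM hΓ hκ hCm1 hMFC' hD1 he he1 heε hS hS' hF0 hF hρ hϵ0 ?_ hC0 hq.mol hq.inv hφ ?_
    · refine le_trans ?_ (hR5 R (hRd.trans hR))
      exact mul_le_mul_of_nonneg_right hq.eps1 hC0
    · intro h' hh'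
      refine (hR4 h' hh' R (hRc.trans hR) ρ ϵ μ (VV χ ξ) φ hq (fun l hl => hws h' hh' l hl)).trans ?_
      refine mul_le_mul_of_nonneg_right hne ?_
      unfold nn
      exact integral_nonneg fun z => by positivity
  refine (measure_mono hsub).trans ?_
  have hsum : volume (⋃ h ∈ S, ⋃ l ∈ Ad, {ξ : Fin J → ℝ | ξ ∈ cube J ∧ ¬ G h l ξ ≤ ENNReal.ofReal (δ0 ^ 2)}) ≤
      ∑ h ∈ S, ∑ l ∈ Ad, ENNReal.ofReal (R ^ (-(B + 3)) / δ0 ^ 2) * volume (cube J) := by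
    refine (measure_biUnion_finset_le _ _).trans (Finset.sum_le_sum fun h hh => ?_)
    exact (measure_biUnion_finset_le _ _).trans (Finset.sum_le_sum fun l hl => hmeasure h hh l hl)
  refine hsum.trans ?_
  rw [Finset.sum_const, Finset.sum_const, nsmul_eq_mul, nsmul_eq_mul, ← mul_assoc, ← mul_assoc]
  refine mul_le_mul_left ?_ _
  rw [← ENNReal.ofReal_natCast, ← ENNReal.ofReal_natCast, ← ENNReal.ofReal_mul (by positivity),
    ← ENNReal.ofReal_mul (by positivity)]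
  apply ENNReal.ofReal_le_ofReal
  have h1 : R ^ (-(B + 2)) = R ^ (-(B + 3)) * R := by
    rw [← Real.rpow_add_one hRpos.ne']
    congr 1
    ring
  rw [h1]
  have h2 : 0 < R ^ (-(B + 3)) := Real.rpow_pos_of_pos hRpos _
  calc (S.card : ℝ) * Ad.card * (R ^ (-(B + 3)) / δ0 ^ 2) = R ^ (-(B + 3)) * ((S.card : ℝ) * Ad.card / δ0 ^ 2) := by ring
    _ ≤ R ^ (-(B + 3)) * R := mul_le_mul_of_nonneg_left (hRf.trans hR) h2.le

end Pool.Agent.RPQ
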