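import Pool.Agent.helper98.RPQ.SpecR
import Pool.Agent.helper62.RS.All

/-!
# MP_07c750, project RPQ, row WDE (majorants of words)
-/

set_option autoImplicit false

open scoped MatrixGroups ContDiff Topology UpperHalfPlane ComplexConjugate ENNReal
open UpperHalfPlane MeasureTheory Filter Set

namespace Pool.Agent.RPQ

open Pool.Agent.RS
open Pool.Agent.MS (BA BB st pf gk Dk amk)

theorem WDE_it (m : SL(2, ℝ) → ENNReal) (t : ℝ) (n : ℕ) :
    mc m t n = pM n (fun _ g h => m ((g * aM t)⁻¹ * h)) := by
  induction n with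
  | zero => rfl
  | succ n ih =>
    funext g h
    show ∫⁻ p, m ((g * aM t)⁻¹ * p) * mc m t n p h ∂mG =
      ∫⁻ p, m ((g * aM t)⁻¹ * p) * pM n (fun _ g h => m ((g * aM t)⁻¹ * h)) p h ∂mG
    rw [ih]

theorem WDE_congr (a : ℕ) : ∀ s s' : ℕ → SL(2, ℝ) → SL(2, ℝ) → ENNReal, (∀ j ≤ a, s j = s' j) → pM a s = pM a s' := by
  induction a with
  | zero =>
    intro s s' h
    exact h 0 le_rfl
  | succ a ih =>
    intro s s' h
    funext g k
    show ∫⁻ p, s 0 g p * pM a (fun j => s (j + 1)) p k ∂mG = ∫⁻ p, s' 0 g p * pM a (fun j => s' (j + 1)) p k ∂mG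
    rw [h 0 (Nat.zero_le _), ih _ _ (fun j hj => h (j + 1) (Nat.succ_le_succ hj))]

theorem WDE_step {m : SL(2, ℝ) → ENNReal} (hm : Measurable m) (t : ℝ) :
    Measurable (Function.uncurry fun g h : SL(2, ℝ) => m ((g * aM t)⁻¹ * h)) := by
  have : SecondCountableTopology SL(2, ℝ) := A_GLC.2.1
  have h1 : Continuous fun p : SL(2, ℝ) × SL(2, ℝ) => (p.1 * aM t)⁻¹ * p.2 := by fun_prop
  exact hm.comp h1.measurable

theorem WDE_sW {A : Set SL(2, ℝ)} (hA : MeasurableSet A) {s : SL(2, ℝ) → SL(2, ℝ) → ENNReal}
    (hs : Measurable (Function.uncurry s)) (l : List ℕ) (j : ℕ) : Measurable (Function.uncurry (sW A l s j)) := by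
  have h1 : Measurable fun g : SL(2, ℝ) => A.indicator (fun _ => (1 : ENNReal)) g := measurable_const.indicator hA
  have h2 : Measurable fun p : SL(2, ℝ) × SL(2, ℝ) =>
      (if j ∈ mks l then A.indicator (fun _ => (1 : ENNReal)) p.1 else 1) := by
    by_cases hj : j ∈ mks l
    · simp only [if_pos hj]
      exact h1.comp measurable_fst
    · simp only [if_neg hj]
      exact measurable_const
  have h3 : Measurable fun p : SL(2, ℝ) × SL(2, ℝ) =>
      (if j + 1 = nst l then A.indicator (fun _ => (1 : ENNReal)) p.2 else 1) := by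
    by_cases hj : j + 1 = nst l
    · simp only [if_pos hj]
      exact h1.comp measurable_snd
    · simp only [if_neg hj]
      exact measurable_const
  exact (h2.mul hs).mul h3

theorem WDE_one (hCAE : CAE_stmt) {m : SL(2, ℝ) → ENNReal} (hm : Measurable m) (t : ℝ) {A : Set SL(2, ℝ)}
    (hA : MeasurableSet A) (n : ℕ) (g h : SL(2, ℝ)) :
    wdE m t A [n] g h = pM (nst [n] - 1) (sW A [n] (fun g h => m ((g * aM t)⁻¹ * h))) g h := by
  have hn : nst [n] - 1 = n := by
    unfold nst
    simp
  rw [hn]
  have hI : Measurable (A.indicator (fun _ => (1 : ENNReal))) := measurable_const.indicator hA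
  have h1 := (hCAE (fun _ g h => m ((g * aM t)⁻¹ * h)) (fun _ => WDE_step hm t)).2 n
    (A.indicator (fun _ => (1 : ENNReal))) (A.indicator (fun _ => (1 : ENNReal))) hI hI g h
  have h2 : pM n (sW A [n] (fun g h => m ((g * aM t)⁻¹ * h))) =
      pM n (fun j g h => (if j = 0 then A.indicator (fun _ => (1 : ENNReal)) g else 1) *
      m ((g * aM t)⁻¹ * h) * (if j = n then A.indicator (fun _ => (1 : ENNReal)) h else 1)) := by
    apply WDE_congr
    intro j hj
    funext g h
    unfold sW
    have e1 : j ∈ mks [n] ↔ j = 0 := by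
      have : mks [n] = [0, 0 + (n + 1)] := rfl
      rw [this]
      simp only [List.mem_cons, List.not_mem_nil, or_false]
      constructor
      · rintro (h1 | h1)
        · exact h1
        · omega
      · exact Or.inl
    have e2 : j + 1 = nst [n] ↔ j = n := by
      have : nst [n] = n + 1 := by
        unfold nst
        simp
      rw [this]
      omega
    simp only [e1, e2]
  rw [h2, h1, ← WDE_it]
  rfl

theorem WDE_word (hCAE : CAE_stmt) (hMKS : MKS_stmt) {m : SL(2, ℝ) → ENNReal} (hm : Measurable m) (t : ℝ)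
    {A : Set SL(2, ℝ)} (hA : MeasurableSet A) (l : List ℕ) :
    l ≠ [] → wdE m t A l = pM (nst l - 1) (sW A l (fun g h => m ((g * aM t)⁻¹ * h))) := by
  induction l with
  | nil => exact fun h => absurd rfl h
  | cons n l ih =>
    intro _
    cases l with
    | nil =>
      funext g h
      exact WDE_one hCAE hm t hA n g h
    | cons k l =>
      funext g h
      have ih' := ih (by simp)
      have hl1 : 1 ≤ nst (k :: l) := hMKS.2.1 _ (by simp)
      have hn : nst (n :: k :: l) - 1 = n + 1 + (nst (k :: l) - 1) := by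
        have : nst (n :: k :: l) = (n + 1) + nst (k :: l) := by
          unfold nst
          simp
        rw [this]
        omega
      have hw : wdE m t A (n :: k :: l) g h =
          ∫⁻ p, A.indicator (fun _ => (1 : ENNReal)) g * mc m t n g p * wdE m t A (k :: l) p h ∂mG := rfl
      have hI : Measurable (A.indicator (fun _ => (1 : ENNReal))) := measurable_const.indicator hA
      rw [hw, hn, (hCAE (sW A (n :: k :: l) (fun g h => m ((g * aM t)⁻¹ * h)))
        (WDE_sW hA (WDE_step hm t) _)).1 n (nst (k :: l) - 1) g h]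
      obtain ⟨m1, m2⟩ := hMKS.2.2.1 A (fun g h => m ((g * aM t)⁻¹ * h)) n (k :: l) (by simp)
      have h2 : (fun j => sW A (n :: k :: l) (fun g h => m ((g * aM t)⁻¹ * h)) (n + 1 + j)) =
          sW A (k :: l) (fun g h => m ((g * aM t)⁻¹ * h)) := by
        funext j
        exact m2 j
      rw [h2, ← ih']
      have h3 : ∀ p, pM n (sW A (n :: k :: l) (fun g h => m ((g * aM t)⁻¹ * h))) g p =
          A.indicator (fun _ => (1 : ENNReal)) g * mc m t n g p := by
        intro p
        have h1 := (hCAE (fun _ g h => m ((g * aM t)⁻¹ * h)) (fun _ => WDE_step hm t)).2 n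
          (A.indicator (fun _ => (1 : ENNReal))) (fun _ => 1) hI measurable_const g p
        have h4 : pM n (sW A (n :: k :: l) (fun g h => m ((g * aM t)⁻¹ * h))) =
            pM n (fun j g h => (if j = 0 then A.indicator (fun _ => (1 : ENNReal)) g else 1) *
              m ((g * aM t)⁻¹ * h) * (if j = n then (fun _ => (1 : ENNReal)) h else 1)) := by
          apply WDE_congr
          intro j hj
          rw [m1 j hj]
          funext g h
          simp only [ite_self, mul_one]
        rw [h4, h1, ← WDE_it, mul_one]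
      simp only [h3]

theorem WDE_proof (hUNE : UNE_stmt) (hCAE : CAE_stmt) (hMKS : MKS_stmt) (hVXI : VXI_stmt) : WDE_stmt := by
  intro m t hm
  have _h := hVXI
  refine ⟨fun n => ?_, fun A l hA hl => ?_⟩
  · rw [WDE_it]
    have h1 := hUNE (fun _ g h => m ((g * aM t)⁻¹ * h)) (fun _ => WDE_step hm t) n
    exact ⟨h1.1, h1.2⟩
  · rw [WDE_word hCAE hMKS hm t hA l hl]
    have h1 := hUNE (sW A l (fun g h => m ((g * aM t)⁻¹ * h))) (WDE_sW hA (WDE_step hm t) l) (nst l - 1)
    refine ⟨h1.1, fun g h => ?_⟩
    rw [h1.2 g h]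
    have hl1 : 1 ≤ nst l := hMKS.2.1 _ hl
    have hn : nst l - 1 + 1 = nst l := by omega
    apply lintegral_congr
    intro v
    rw [hn]
    exact hMKS.2.2.2.2.1 A m t l (vx g h v) hl

end Pool.Agent.RPQ
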