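import Pool.Agent.helper98.RPQ.SpecR
import Pool.Agent.helper62.RS.All

set_option autoImplicit false

open scoped MatrixGroups ContDiff Topology UpperHalfPlane ComplexConjugate ENNReal
open UpperHalfPlane MeasureTheory Filter Set

namespace Pool.Agent.RPQ

open Pool.Agent.RS
open Pool.Agent.MS (BA BB st pf gk Dk amk)

theorem EH1_nst (l : List ℕ) (hl : l ≠ []) : nst l - 1 + 1 = nst l := by
  have h : 1 ≤ nst l := by
    cases l with
    | nil => exact absurd rfl hl
    | cons n l =>
      unfold nst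
      rw [List.map_cons, List.sum_cons]
      omega
  omega

theorem EH1_wgt (u : SL(2, ℝ) → ℂ) (m : SL(2, ℝ) → ENNReal) (t : ℝ) (A : Set SL(2, ℝ)) (l : List ℕ)
    (hum : ∀ b, ‖u b‖ₑ ≤ m b) (w : ℕ → SL(2, ℝ)) :
    ‖wgt u t A l w‖ₑ ≤ inA A l w * ∏ j ∈ Finset.range (nst l), m (ic t w j) := by
  unfold wgt inA
  by_cases hw : w ∈ {w : ℕ → SL(2, ℝ) | ∀ j ∈ mks l, w j ∈ A}
  · rw [Set.indicator_of_mem hw, Set.indicator_of_mem hw, one_mul]
    have h1 : ‖∏ j ∈ Finset.range (nst l), u (ic t w j)‖ₑ = ∏ j ∈ Finset.range (nst l), ‖u (ic t w j)‖ₑ := by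
      induction (nst l) with
      | zero => simp
      | succ n ih => rw [Finset.prod_range_succ, enorm_mul, ih, Finset.prod_range_succ]
    rw [h1]
    exact Finset.prod_le_prod' fun j _ => hum _
  · rw [Set.indicator_of_notMem hw, Set.indicator_of_notMem hw]
    simp

theorem EH1_inA_le (A : Set SL(2, ℝ)) (l : List ℕ) (w : ℕ → SL(2, ℝ)) : inA A l w ≤ 1 := by
  unfold inA
  by_cases hw : w ∈ {w : ℕ → SL(2, ℝ) | ∀ j ∈ mks l, w j ∈ A}
  · rw [Set.indicator_of_mem hw]
  · rw [Set.indicator_of_notMem hw]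
    exact zero_le_one

theorem EH1_vo_meas (hVXI : VXI_stmt) {Γ : Subgroup SL(2, ℝ)} [Countable Γ] (l : List ℕ) (g h : SL(2, ℝ)) (j : ℕ) :
    Measurable (fun q : Om Γ l => vo g h q j) := by
  have : SecondCountableTopology SL(2, ℝ) := A_GLC.2.1
  have h1 := (hVXI.2.2.2.1 (nst l - 1) j).measurable
  have h2 : Measurable (fun q : Om Γ l => (((g, (q.1 : SL(2, ℝ)) * h), q.2) :
      (SL(2, ℝ) × SL(2, ℝ)) × (Fin (nst l - 1) → SL(2, ℝ)))) := by
    refine Measurable.prodMk (Measurable.prodMk measurable_const ?_) measurable_snd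
    have h3 : Measurable (fun γ : Γ => (γ : SL(2, ℝ)) * h) := measurable_of_countable _
    exact h3.comp measurable_fst
  exact h1.comp h2

theorem EH1_ic_meas (hVXI : VXI_stmt) {Γ : Subgroup SL(2, ℝ)} [Countable Γ] (l : List ℕ) (t : ℝ) (g h : SL(2, ℝ)) (j : ℕ) :
    Measurable (fun q : Om Γ l => ic t (vo g h q) j) := by
  have : SecondCountableTopology SL(2, ℝ) := A_GLC.2.1
  have h1 := (hVXI.2.2.2.2.1 (nst l - 1) j t).measurable
  have h2 : Measurable (fun q : Om Γ l => (((g, (q.1 : SL(2, ℝ)) * h), q.2) :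
      (SL(2, ℝ) × SL(2, ℝ)) × (Fin (nst l - 1) → SL(2, ℝ)))) := by
    refine Measurable.prodMk (Measurable.prodMk measurable_const ?_) measurable_snd
    have h3 : Measurable (fun γ : Γ => (γ : SL(2, ℝ)) * h) := measurable_of_countable _
    exact h3.comp measurable_fst
  have h4 : (fun q : Om Γ l => ic t (vo g h q) j) =
      (fun p : (SL(2, ℝ) × SL(2, ℝ)) × (Fin (nst l - 1) → SL(2, ℝ)) => ic t (vx p.1.1 p.1.2 p.2) j) ∘
        (fun q : Om Γ l => (((g, (q.1 : SL(2, ℝ)) * h), q.2) :
          (SL(2, ℝ) × SL(2, ℝ)) × (Fin (nst l - 1) → SL(2, ℝ)))) := by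
    funext q
    simp only [Function.comp_apply, vo]
  rw [h4]
  exact h1.comp h2

theorem EH1_inA_meas (hVXI : VXI_stmt) {Γ : Subgroup SL(2, ℝ)} [Countable Γ] (l : List ℕ) (A : Set SL(2, ℝ))
    (hA : MeasurableSet A) (g h : SL(2, ℝ)) : Measurable (fun q : Om Γ l => inA A l (vo g h q)) := by
  have h1 : MeasurableSet {q : Om Γ l | ∀ j ∈ mks l, vo g h q j ∈ A} := by
    have h2 : {q : Om Γ l | ∀ j ∈ mks l, vo g h q j ∈ A} = ⋂ j : ℕ, {q : Om Γ l | j ∈ mks l → vo g h q j ∈ A} := by
      ext q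
      simp only [Set.mem_ofPred_eq, Set.mem_iInter]
    rw [h2]
    refine MeasurableSet.iInter fun j => ?_
    by_cases hj : j ∈ mks l
    · have h3 : {q : Om Γ l | j ∈ mks l → vo g h q j ∈ A} = (fun q : Om Γ l => vo g h q j) ⁻¹' A := by
        ext q
        simp [hj]
      rw [h3]
      exact EH1_vo_meas hVXI l g h j hA
    · have h3 : {q : Om Γ l | j ∈ mks l → vo g h q j ∈ A} = Set.univ := by
        ext q
        simp [hj]
      rw [h3]
      exact MeasurableSet.univ
  have h4 : (fun q : Om Γ l => inA A l (vo g h q)) =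
      {q : Om Γ l | ∀ j ∈ mks l, vo g h q j ∈ A}.indicator (fun _ => (1 : ENNReal)) := by
    funext q
    unfold inA
    by_cases hq : ∀ j ∈ mks l, vo g h q j ∈ A
    · rw [Set.indicator_of_mem (show vo g h q ∈ {w : ℕ → SL(2, ℝ) | ∀ j ∈ mks l, w j ∈ A} from hq),
        Set.indicator_of_mem (show q ∈ {q : Om Γ l | ∀ j ∈ mks l, vo g h q j ∈ A} from hq)]
    · rw [Set.indicator_of_notMem (show vo g h q ∉ {w : ℕ → SL(2, ℝ) | ∀ j ∈ mks l, w j ∈ A} from hq),
        Set.indicator_of_notMem (show q ∉ {q : Om Γ l | ∀ j ∈ mks l, vo g h q j ∈ A} from hq)]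
  rw [h4]
  exact measurable_const.indicator h1

theorem EH1_prod_meas (hVXI : VXI_stmt) {Γ : Subgroup SL(2, ℝ)} [Countable Γ] (l : List ℕ) (t : ℝ)
    (m : SL(2, ℝ) → ENNReal) (hm : Measurable m) (g h : SL(2, ℝ)) :
    Measurable (fun q : Om Γ l => ∏ j ∈ Finset.range (nst l), m (ic t (vo g h q) j)) :=
  Finset.measurable_fun_prod _ fun j _ => hm.comp (EH1_ic_meas hVXI l t g h j)

theorem EH1_proof (hQMB : QMB_stmt) (hPIN : PIN_stmt) (hWDE : WDE_stmt) (hVXI : VXI_stmt) : EH1_stmt := by
  classical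
  intro Γ F J nc K χ κ t u m A l Mx S hΓ hF hχ hu huB huD hA hinv hl hm hum hS hMx hSs hK g h
  obtain ⟨hσ, hcount, hmeas, hperK, -⟩ := hPIN Γ F J χ κ t u A l hΓ hF hχ hu huB huD hA hinv hl
  have := hσ
  have := hcount
  have hmP : SigmaFinite (mP (nst l - 1)) := hVXI.2.2.2.2.2.1 _
  have hN := EH1_nst l hl
  set P : Om Γ l → ENNReal := fun q => ∏ j ∈ Finset.range (nst l), m (ic t (vo g h q) j) with hP
  set M : Om Γ l → ENNReal := fun q => inA A l (vo g h q) * P q with hM
  set x : Om Γ l → Fin J → ℝ := fun q j => TH (χ j) κ t (nst l) g (ic t (vo g h q)) with hx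
  set c : ENNReal := ENNReal.ofReal ((9 / 10) ^ nc) with hc
  have hPm : Measurable P := EH1_prod_meas hVXI l t m hm g h
  have hMm : Measurable M := (EH1_inA_meas hVXI l A hA g h).mul hPm
  have hMP : ∀ q, M q ≤ P q := by
    intro q
    rw [hM]
    exact mul_le_of_le_one_left' (EH1_inA_le A l _)
  -- the integral of P over the fibres
  have hPf : ∀ γ : Γ, ∫⁻ v, P (γ, v) ∂mP (nst l - 1) = mc m t (nst l - 1) g ((γ : SL(2, ℝ)) * h) := by
    intro γ
    rw [((hWDE m t hm).1 (nst l - 1)).2 g ((γ : SL(2, ℝ)) * h), hN]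
    rfl
  have hMf : ∀ γ : Γ, ∫⁻ v, M (γ, v) ∂mP (nst l - 1) = wdE m t A l g ((γ : SL(2, ℝ)) * h) := by
    intro γ
    rw [((hWDE m t hm).2 A l hA hl).2 g ((γ : SL(2, ℝ)) * h)]
    rfl
  have hPi : ∫⁻ q, P q ∂mO Γ l = ∑' γ : Γ, mc m t (nst l - 1) g ((γ : SL(2, ℝ)) * h) := by
    unfold mO
    rw [lintegral_prod _ hPm.aemeasurable, lintegral_count]
    exact tsum_congr hPf
  have hMi : ∫⁻ q, M q ∂mO Γ l = ∑' γ : Γ, wdE m t A l g ((γ : SL(2, ℝ)) * h) := by
    unfold mO
    rw [lintegral_prod _ hMm.aemeasurable, lintegral_count]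
    exact tsum_congr hMf
  have hPS : ∫⁻ q, P q ∂mO Γ l ≤ S := by
    rw [hPi]
    exact hSs g h
  have hMS : ∫⁻ q, M q ∂mO Γ l ≠ ⊤ :=
    ne_top_of_le_ne_top hS ((lintegral_mono hMP).trans hPS)
  have hQ := (hQMB (Om Γ l) (mO Γ l) J nc (fun q => wgt u t A l (vo g h q)) M x (hmeas g h).1 hMm (hmeas g h).2
    (fun q => EH1_wgt u m t A l hum _) hMS).2
  have hL : ∫⁻ ξ, ‖perK Γ (wdK (VV χ ξ) κ t u A l) g h‖ₑ ^ 2 ∂PJ J = ∫⁻ ξ, ‖∫ q, Complex.exp (((∑ j, ξ j * x q j : ℝ) : ℂ) * Complex.I) *
      wgt u t A l (vo g h q) ∂mO Γ l‖ₑ ^ 2 ∂PJ J := by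
    refine lintegral_congr fun ξ => ?_
    rw [hperK ξ g h]
  rw [hL]
  refine hQ.trans ?_
  -- the inner integral
  have hin : ∀ q, M q ≠ 0 → ∫⁻ q', M q' * und1 nc (x q) (x q') ∂mO Γ l ≤ K * Mx := by
    intro q hq
    set b : ℕ → SL(2, ℝ) := ic t (vo g h q) with hb
    have hPq : P q ≠ 0 := fun h0 => hq (by rw [hM]; simp only []; rw [h0, mul_zero])
    have hb0 : ∀ j < nst l, m (b j) ≠ 0 := by
      intro j hj
      exact (Finset.prod_ne_zero_iff.1 hPq) j (Finset.mem_range.2 hj)
    have hend : ∀ q : Om Γ l, pth t g (ic t (vo g h q)) (nst l) = (q.1 : SL(2, ℝ)) * h := by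
      intro q
      have h1 := hVXI.1 t (vo g h q) (nst l)
      have h2 := (hVXI.2.2.1 (nst l - 1) g ((q.1 : SL(2, ℝ)) * h) q.2)
      rw [hN] at h2
      have h3 : vo g h q 0 = g := h2.1
      rw [h3] at h1
      rw [h1]
      exact h2.2
    set Bd : Set Γ := {γ : Γ | ∃ b' : ℕ → SL(2, ℝ), (∀ j < nst l, m (b' j) ≠ 0) ∧
      pth t g b' (nst l) = (γ : SL(2, ℝ)) * ((q.1 : SL(2, ℝ)) * h) ∧ Und χ κ t (nst l) nc g g b b'} with hBd
    have hcard : Bd.encard ≤ K := hK g ((q.1 : SL(2, ℝ)) * h) b hb0 (hend q)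
    set T : Set Γ := (fun γ : Γ => γ * q.1⁻¹) ⁻¹' Bd with hT
    have hTc : T.encard ≤ K := by
      rw [hT, Set.encard_preimage_of_bijective (Group.mulRight_bijective q.1⁻¹)]
      exact hcard
    have hfm : Measurable fun q' : Om Γ l => T.indicator (fun _ => (1 : ENNReal)) q'.1 * P q' := by
      refine Measurable.mul ?_ hPm
      have : Measurable (T.indicator (fun _ => (1 : ENNReal))) := measurable_of_countable _
      exact this.comp measurable_fst
    have h1 : ∀ q', M q' * und1 nc (x q) (x q') ≤ T.indicator (fun _ => (1 : ENNReal)) q'.1 * P q' := by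
      intro q'
      by_cases h0 : M q' * und1 nc (x q) (x q') = 0
      · rw [h0]
        exact zero_le
      · have hM0 : M q' ≠ 0 := left_ne_zero_of_mul h0
        have hu0 : und1 nc (x q) (x q') ≠ 0 := right_ne_zero_of_mul h0
        have hP0 : P q' ≠ 0 := fun h1 => hM0 (by rw [hM]; simp only []; rw [h1, mul_zero])
        have hund : {j : Fin J | 1 ≤ |x q j - x q' j|}.ncard < nc := by
          by_contra hcon
          apply hu0
          unfold und1
          exact Set.indicator_of_notMem (show (x q, x q') ∉ {p : (Fin J → ℝ) × (Fin J → ℝ) |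
            {j : Fin J | 1 ≤ |p.1 j - p.2 j|}.ncard < nc} from hcon) _
        have hmem : q'.1 ∈ T := by
          rw [hT]
          show q'.1 * q.1⁻¹ ∈ Bd
          refine ⟨ic t (vo g h q'), ?_, ?_, ?_⟩
          · intro j hj
            exact (Finset.prod_ne_zero_iff.1 hP0) j (Finset.mem_range.2 hj)
          · rw [hend q']
            have h2 : ((q'.1 * q.1⁻¹ : Γ) : SL(2, ℝ)) = (q'.1 : SL(2, ℝ)) * (q.1 : SL(2, ℝ))⁻¹ := by
              push_cast
              rfl
            rw [h2, mul_assoc, inv_mul_cancel_left]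
          · exact hund
        rw [Set.indicator_of_mem hmem, one_mul]
        refine le_trans ?_ (hMP q')
        refine mul_le_of_le_one_right' ?_
        unfold und1
        by_cases h5 : (x q, x q') ∈ {p : (Fin J → ℝ) × (Fin J → ℝ) | {j : Fin J | 1 ≤ |p.1 j - p.2 j|}.ncard < nc}
        · rw [Set.indicator_of_mem h5]
        · rw [Set.indicator_of_notMem h5]
          exact zero_le_one
    refine (lintegral_mono h1).trans ?_
    unfold mO
    rw [lintegral_prod _ hfm.aemeasurable, lintegral_count]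
    have h2 : ∀ γ : Γ, ∫⁻ v, T.indicator (fun _ => (1 : ENNReal)) γ * P (γ, v) ∂mP (nst l - 1) ≤
        T.indicator (fun _ => Mx) γ := by
      intro γ
      by_cases hγ : γ ∈ T
      · rw [Set.indicator_of_mem hγ, Set.indicator_of_mem hγ]
        simp only [one_mul]
        rw [hPf γ]
        exact hMx _ _
      · rw [Set.indicator_of_notMem hγ, Set.indicator_of_notMem hγ]
        simp
    refine (ENNReal.tsum_le_tsum h2).trans ?_
    rw [← tsum_subtype T (fun _ => Mx), ENNReal.tsum_set_const]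
    refine mul_le_mul_left ?_ Mx
    exact_mod_cast hTc
  have hfin : ∀ q, ∫⁻ q', M q * M q' * (und1 nc (x q) (x q') + c) ∂mO Γ l ≤ M q * (K * Mx + c * S) := by
    intro q
    by_cases hq : M q = 0
    · rw [hq]
      simp
    · have hum1 : ∀ q', M q * M q' * (und1 nc (x q) (x q') + c) = M q * (M q' * und1 nc (x q) (x q') + c * M q') := by
        intro q'
        ring
      have hund : Measurable fun q' => M q' * und1 nc (x q) (x q') := by
        refine hMm.mul ?_
        have hxm : Measurable x := (hmeas g h).2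
        have hset : MeasurableSet {q' : Om Γ l | {j : Fin J | 1 ≤ |x q j - x q' j|}.ncard < nc} := by
          have h6 : ∀ W : Set (Fin J), MeasurableSet {q' : Om Γ l | {j : Fin J | 1 ≤ |x q j - x q' j|} = W} := by
            intro W
            have h7 : {q' : Om Γ l | {j : Fin J | 1 ≤ |x q j - x q' j|} = W} =
                ⋂ j : Fin J, {q' : Om Γ l | 1 ≤ |x q j - x q' j| ↔ j ∈ W} := by
              ext q'
              simp only [Set.mem_ofPred_eq, Set.mem_iInter, Set.ext_iff]
            rw [h7]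
            refine MeasurableSet.iInter fun j => ?_
            have h8 : MeasurableSet {q' : Om Γ l | 1 ≤ |x q j - x q' j|} := by
              have h9 : Measurable fun q' => |x q j - x q' j| := by
                have h10 : Measurable fun q' => x q' j := (measurable_pi_apply j).comp hxm
                exact (measurable_const.sub h10).abs
              exact measurableSet_le measurable_const h9
            by_cases hj : j ∈ W
            · have h11 : {q' : Om Γ l | 1 ≤ |x q j - x q' j| ↔ j ∈ W} = {q' : Om Γ l | 1 ≤ |x q j - x q' j|} := by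
                ext q'
                simp [hj]
              rw [h11]
              exact h8
            · have h11 : {q' : Om Γ l | 1 ≤ |x q j - x q' j| ↔ j ∈ W} = {q' : Om Γ l | 1 ≤ |x q j - x q' j|}ᶜ := by
                ext q'
                simp [hj]
              rw [h11]
              exact h8.compl
          have h12 : {q' : Om Γ l | {j : Fin J | 1 ≤ |x q j - x q' j|}.ncard < nc} =
              ⋃ W ∈ {W : Set (Fin J) | W.ncard < nc}, {q' : Om Γ l | {j : Fin J | 1 ≤ |x q j - x q' j|} = W} := by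
            ext q'
            simp only [Set.mem_ofPred_eq, Set.mem_iUnion, exists_prop]
            constructor
            · intro h13
              exact ⟨_, h13, rfl⟩
            · rintro ⟨W, hW, h13⟩
              rw [h13]
              exact hW
          rw [h12]
          refine MeasurableSet.biUnion (Set.toFinite _).countable fun W _ => h6 W
        have h14 : (fun q' => und1 nc (x q) (x q')) =
            {q' : Om Γ l | {j : Fin J | 1 ≤ |x q j - x q' j|}.ncard < nc}.indicator (fun _ => (1 : ENNReal)) := by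
          funext q'
          unfold und1
          by_cases h15 : {j : Fin J | 1 ≤ |x q j - x q' j|}.ncard < nc
          · rw [Set.indicator_of_mem (show (x q, x q') ∈ {p : (Fin J → ℝ) × (Fin J → ℝ) |
              {j : Fin J | 1 ≤ |p.1 j - p.2 j|}.ncard < nc} from h15),
              Set.indicator_of_mem (show q' ∈ {q' : Om Γ l | {j : Fin J | 1 ≤ |x q j - x q' j|}.ncard < nc} from h15)]
          · rw [Set.indicator_of_notMem (show (x q, x q') ∉ {p : (Fin J → ℝ) × (Fin J → ℝ) |
              {j : Fin J | 1 ≤ |p.1 j - p.2 j|}.ncard < nc} from h15),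
              Set.indicator_of_notMem (show q' ∉ {q' : Om Γ l | {j : Fin J | 1 ≤ |x q j - x q' j|}.ncard < nc} from h15)]
        rw [h14]
        exact measurable_const.indicator hset
      have e1 : ∫⁻ a, M q * (M a * und1 nc (x q) (x a) + c * M a) ∂mO Γ l =
          M q * ∫⁻ a, (M a * und1 nc (x q) (x a) + c * M a) ∂mO Γ l :=
        lintegral_const_mul _ (hund.add (hMm.const_mul c))
      have e2 : ∫⁻ a, (M a * und1 nc (x q) (x a) + c * M a) ∂mO Γ l =
          ∫⁻ a, M a * und1 nc (x q) (x a) ∂mO Γ l + ∫⁻ a, c * M a ∂mO Γ l := lintegral_add_left hund _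
      rw [lintegral_congr hum1, e1, e2, lintegral_const_mul _ hMm]
      refine mul_le_mul_right ?_ _
      exact add_le_add (hin q hq) (mul_le_mul_right ((lintegral_mono hMP).trans hPS) _)
  refine (lintegral_mono hfin).trans ?_
  rw [lintegral_mul_const _ hMm, hMi, mul_comm]

end Pool.Agent.RPQ
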