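import Pool.Agent.helper11.RPQ.SpecU

/-!
# RPQ (MP_07c750_an), block R: the random part, rows `rpq:X`

Rules in `Pool/Agent/helper11/RPQ/Defs.lean` (file `Pool/Agent/<seat>/RPQ/X.lean`, `import Pool.Agent.helper98.RPQ.SpecR`, theorem `X_proof : X_stmt`).
RESULT (row WEX, stated in `Pool/Agent/helper11/RPQ/SpecU.lean`): for random coefficients `ξ` in `[-1, 1]^J` the mean of the square of the Hilbert-Schmidt norm of the word kernel `perK Γ (wdK (VV χ ξ) κ t u A l)` is small.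

PROOF. A word of `N = nst l` steps is an integral over paths `g = w 0, w 1, .., w N = h` with `N - 1` inner vertices (UNK, CAK, WDK); the factor of the random phase is
`exp (i Σ_j ξ_j x_j)` with `x_j = TH (χ j)` (THL, PIN). So the mean of `|perK g h|²` is an integral over pairs of paths with the factor `|E exp (i Σ ξ_j (x_j - x'_j))|` which is `≤ (9/10)^nc` unless the pair is undetected (SNC, QMB). For a
fixed path only `K` elements `γ'` of `Γ` occur for undetected pairs, each contributes `≤ Mx` (EH1). What remains is the majorant of the word, an integral over `G` by unfolding (EHS), and block by block it is `≤ ∏ S(n_i) · mG(dG F ∩ A)^(L+1)` (CHN). Numbers: WXN, PAR.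
-/

open scoped MatrixGroups ContDiff Topology UpperHalfPlane ComplexConjugate ENNReal
open UpperHalfPlane MeasureTheory Filter Set

namespace Pool.Agent.RPQ

open Pool.Agent.RS
open Pool.Agent.MS (BA BB st pf gk Dk amk)

noncomputable section

/-- the uniform probability measure on `[-1, 1]^J` -/
def PJ (J : ℕ) : Measure (Fin J → ℝ) :=
  Measure.pi fun _ : Fin J => (2 : ENNReal)⁻¹ • (volume : Measure ℝ).restrict (Icc (-1) 1)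

/-! ## Characteristic functions -/

/-- **Row SNC** (short-medium; pure). `(1/2) ∫_(-1)^1 e^(isx) ds = sin x / x` (`1` for `x = 0`), has absolute value `≤ 1`, and `≤ 9/10` for `|x| ≥ 1`: for `|x| ≥ 10/9` clear, for `1 ≤ x ≤ 10/9` `sin x = sin 1 cos (x-1) + cos 1 sin (x-1) ≤ 89/100 + (5/9)(x-1) ≤ (9/10) x`
(`Real.sin_bound`: `sin 1 ≤ 1 - 1/6 + 5/96`; `Real.cos_one_le`). Product: `MeasureTheory.integral_fintype_prod_eq_prod` (the integrand is `∏ exp (i ξ_j x_j)`). The set of the `j` with `|x j| ≥ 1` has at least `n` elements. -/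
def SNC_stmt : Prop := ∀ J : ℕ, IsProbabilityMeasure (PJ J) ∧ (∀ᵐ ξ ∂PJ J, ∀ j, |ξ j| ≤ 1) ∧
  (∀ x : Fin J → ℝ, ‖∫ ξ, Complex.exp (((∑ j, ξ j * x j : ℝ) : ℂ) * Complex.I) ∂PJ J‖ ≤ 1) ∧
  ∀ (x : Fin J → ℝ) (n : ℕ), n ≤ {j : Fin J | 1 ≤ |x j|}.ncard →
    ‖∫ ξ, Complex.exp (((∑ j, ξ j * x j : ℝ) : ℂ) * Complex.I) ∂PJ J‖ ≤ (9 / 10) ^ n

/-- `1` if fewer than `nc` coordinates of `x` and `y` differ by at least `1`, otherwise `0` -/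
def und1 {J : ℕ} (nc : ℕ) (x y : Fin J → ℝ) : ENNReal :=
  {p : (Fin J → ℝ) × (Fin J → ℝ) | {j : Fin J | 1 ≤ |p.1 j - p.2 j|}.ncard < nc}.indicator (fun _ => 1) (x, y)

/-- **Row QMB** (second moment; medium; from SNC; pure). `w` is integrable. For every `ξ`: `|∫ e w|² = ∫∫ e(q) conj e(q') w(q) conj w(q') dν dν = ∫∫ exp (i Σ ξ_j (x_j(q) - x_j(q'))) w(q) conj w(q')` (`integral_prod_mul`). Integrate over `ξ` (Fubini, the integrand is bounded by `|w(q)| |w(q')|`, integrable for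
`PJ × ν × ν`): `= ∫∫ w(q) conj w(q') Φ(x(q) - x(q'))`, `Φ` from SNC: `|Φ| ≤ 1` if `und1 = 1`, `≤ (9/10)^nc` otherwise. Norm `≤ ∫⁻`. The left side is `ofReal ∫ |..|²` (bounded measurable in `ξ`). The function `und1 nc (x q) (x q')` is measurable (finitely many conditions: `ncard < nc` is a union over the subsets of `Fin J`). -/
def QMB_stmt : Prop := ∀ (Ω : Type) [MeasurableSpace Ω] (ν : Measure Ω) [SigmaFinite ν] (J nc : ℕ) (w : Ω → ℂ) (M : Ω → ENNReal) (x : Ω → Fin J → ℝ),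
  Measurable w → Measurable M → Measurable x → (∀ q, ‖w q‖ₑ ≤ M q) → ∫⁻ q, M q ∂ν ≠ ⊤ →
    Measurable (fun ξ : Fin J → ℝ => ∫ q, Complex.exp (((∑ j, ξ j * x q j : ℝ) : ℂ) * Complex.I) * w q ∂ν) ∧
    ∫⁻ ξ, ‖∫ q, Complex.exp (((∑ j, ξ j * x q j : ℝ) : ℂ) * Complex.I) * w q ∂ν‖ₑ ^ 2 ∂PJ J ≤
      ∫⁻ q, ∫⁻ q', M q * M q' * (und1 nc (x q) (x q') + ENNReal.ofReal ((9 / 10) ^ nc)) ∂ν ∂ν

/-! ## Paths with fixed end points -/

/-- the vertices `g, v 0, .., v (n - 1), h, h, ..` of a path of `n + 1` steps from `g` to `h` -/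
def vx {n : ℕ} (g h : SL(2, ℝ)) (v : Fin n → SL(2, ℝ)) : ℕ → SL(2, ℝ)
  | 0 => g
  | j + 1 => if hj : j < n then v ⟨j, hj⟩ else h

/-- the increments of the path with the vertices `w` -/
def ic (t : ℝ) (w : ℕ → SL(2, ℝ)) (j : ℕ) : SL(2, ℝ) := (w j * aM t)⁻¹ * w (j + 1)

/-- the product of the Haar measures for the inner vertices -/
def mP (n : ℕ) : Measure (Fin n → SL(2, ℝ)) := Measure.pi fun _ : Fin n => mG

/-- **Row VXI** (short; from RS: GLC, GMG). `pth` by induction (`w j a_t ((w j a_t)⁻¹ w (j+1)) = w (j+1)`). Second: cases `j = 0`, `j + 1`. Continuity: finite products and inverses. `mP` is σ-finite (`mG` is: GMG). The map `v ↦ (v 0, tail)` preserves the measures: `measurePreserving_piFinSuccAbove`. -/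
def VXI_stmt : Prop := (∀ (t : ℝ) (w : ℕ → SL(2, ℝ)) (j : ℕ), pth t (w 0) (ic t w) j = w j) ∧
  (∀ (n : ℕ) (g h : SL(2, ℝ)) (v : Fin (n + 1) → SL(2, ℝ)) (j : ℕ), vx g h v (j + 1) = vx (v 0) h (fun i : Fin n => v i.succ) j) ∧
  (∀ (n : ℕ) (g h : SL(2, ℝ)) (v : Fin n → SL(2, ℝ)), vx g h v 0 = g ∧ vx g h v (n + 1) = h) ∧
  (∀ (n j : ℕ), Continuous fun p : (SL(2, ℝ) × SL(2, ℝ)) × (Fin n → SL(2, ℝ)) => vx p.1.1 p.1.2 p.2 j) ∧
  (∀ (n j : ℕ) (t : ℝ), Continuous fun p : (SL(2, ℝ) × SL(2, ℝ)) × (Fin n → SL(2, ℝ)) => ic t (vx p.1.1 p.1.2 p.2) j) ∧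
  (∀ n, SigmaFinite (mP n)) ∧
  (∀ (n : ℕ) (f : SL(2, ℝ) × (Fin n → SL(2, ℝ)) → ENNReal), Measurable f →
    ∫⁻ v : Fin (n + 1) → SL(2, ℝ), f (v 0, fun i => v i.succ) ∂mP (n + 1) = ∫⁻ p, ∫⁻ v, f (p, v) ∂mP n ∂mG) ∧
  ∀ (n : ℕ) (f : SL(2, ℝ) × (Fin n → SL(2, ℝ)) → ℂ), Integrable f (mG.prod (mP n)) →
    ∫ v : Fin (n + 1) → SL(2, ℝ), f (v 0, fun i => v i.succ) ∂mP (n + 1) = ∫ p, ∫ v, f (p, v) ∂mP n ∂mG

/-- composition of kernels with values in `[0, ∞]` along a path of `n + 1` steps; the step `j` has the kernel `s j` -/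
def pM : ℕ → (ℕ → SL(2, ℝ) → SL(2, ℝ) → ENNReal) → SL(2, ℝ) → SL(2, ℝ) → ENNReal
  | 0, s => s 0
  | n + 1, s => fun g h => ∫⁻ p, s 0 g p * pM n (fun j => s (j + 1)) p h ∂mG

/-- the same for complex kernels -/
def pK : ℕ → (ℕ → SL(2, ℝ) → SL(2, ℝ) → ℂ) → SL(2, ℝ) → SL(2, ℝ) → ℂ
  | 0, s => s 0
  | n + 1, s => cmp (s 0) (pK n (fun j => s (j + 1)))

/-- **Row UNE** (unrolling for `[0, ∞]`; short-medium; from VXI, RS: GLC, GMG). Measurability by induction (`Measurable.lintegral_prod_right'`; `mG` is σ-finite; `SL(2, ℝ)` is second countable). Formula: induction on `n` for all `s`; VXI for `f (p, v) = s 0 g p * ∏_j s (j+1) (vx p h v j) (vx p h v (j+1))`, `Finset.prod_range_succ'`, `lintegral_const_mul`. -/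
def UNE_stmt : Prop := ∀ s : ℕ → SL(2, ℝ) → SL(2, ℝ) → ENNReal, (∀ j, Measurable (Function.uncurry (s j))) → ∀ n : ℕ, Measurable (Function.uncurry (pM n s)) ∧
  ∀ g h : SL(2, ℝ), pM n s g h = ∫⁻ v, ∏ j ∈ Finset.range (n + 1), s j (vx g h v j) (vx g h v (j + 1)) ∂mP n

/-- **Row UNK** (unrolling for `ℂ`; medium; from VXI, KPG (only: `cmp` of two `GKer` is `GKer`), RS: GLC, GMG, GLI). `GKer` by induction. Integrability: the product is measurable, bounded, and it is `0` unless `dist (g•I) (v_j•I) ≤ D_0 + .. + D_j` for all `j`: a set of finite measure (`mG {p | dist (g•I) (p•I) ≤ D} < ⊤`: `dG` of a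
compact set, GMG; `Measure.pi_pi` for the product of these sets). Formula: as UNE. -/
def UNK_stmt : Prop := ∀ (Γ : Subgroup SL(2, ℝ)) (F : Set ℍ), QU.SurfaceGroup Γ → QU.NiceDom Γ F → ∀ s : ℕ → SL(2, ℝ) → SL(2, ℝ) → ℂ, (∀ j, GKer Γ (s j)) → ∀ n : ℕ, GKer Γ (pK n s) ∧
  ∀ g h : SL(2, ℝ), Integrable (fun v => ∏ j ∈ Finset.range (n + 1), s j (vx g h v j) (vx g h v (j + 1))) (mP n) ∧
    pK n s g h = ∫ v, ∏ j ∈ Finset.range (n + 1), s j (vx g h v j) (vx g h v (j + 1)) ∂mP n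

/-- **Row CAE** (concatenation for `[0, ∞]`; short-medium; from UNE, RS: GMG). Induction on `a` for all `s`: `a = 0` is the definition of `pM (b + 1)`; step: `pM (a + 1 + b + 1) s g h = ∫⁻ q, s 0 g q * ∫⁻ p, pM a s' q p * pM b s'' p h = ∫⁻ p, (∫⁻ q, s 0 g q * pM a s' q p) * pM b s'' p h`
(`lintegral_const_mul`, `lintegral_mul_const`, `lintegral_lintegral_swap`). Last parts: constants can be taken out of the first and the last step. -/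
def CAE_stmt : Prop := ∀ s : ℕ → SL(2, ℝ) → SL(2, ℝ) → ENNReal, (∀ j, Measurable (Function.uncurry (s j))) →
  (∀ (a b : ℕ) (g h : SL(2, ℝ)), pM (a + 1 + b) s g h = ∫⁻ p, pM a s g p * pM b (fun j => s (a + 1 + j)) p h ∂mG) ∧
  ∀ (n : ℕ) (x y : SL(2, ℝ) → ENNReal), Measurable x → Measurable y → ∀ g h : SL(2, ℝ),
    pM n (fun j g h => (if j = 0 then x g else 1) * s j g h * (if j = n then y h else 1)) g h = x g * pM n s g h * y h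

/-- **Row CAK** (concatenation for `ℂ`; medium; from UNK, KPG, RS: GMG). As CAE, with `integral_integral_swap`: the integrand `s 0 g q * pM.. ` is measurable, bounded and supported in a set of finite measure of the `(q, p)` (finite range). -/
def CAK_stmt : Prop := ∀ (Γ : Subgroup SL(2, ℝ)) (F : Set ℍ), QU.SurfaceGroup Γ → QU.NiceDom Γ F → ∀ s : ℕ → SL(2, ℝ) → SL(2, ℝ) → ℂ, (∀ j, GKer Γ (s j)) →
  (∀ (a b : ℕ) (g h : SL(2, ℝ)), pK (a + 1 + b) s g h = ∫ p, pK a s g p * pK b (fun j => s (a + 1 + j)) p h ∂mG) ∧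
  ∀ (n : ℕ) (x y : SL(2, ℝ) → ℂ) (g h : SL(2, ℝ)),
    pK n (fun j g h => (if j = 0 then x g else 1) * s j g h * (if j = n then y h else 1)) g h = x g * pK n s g h * y h

/-! ## Words as integrals over paths -/

/-- the number of steps of a word -/
def nst (l : List ℕ) : ℕ := (l.map (· + 1)).sum

/-- the times of the projections of a word: `0, n_1 + 1, n_1 + 1 + n_2 + 1, .., nst l` -/
def mks : List ℕ → List ℕ
  | [] => [0]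
  | n :: l => 0 :: (mks l).map (· + (n + 1))

/-- `1` if the path with the vertices `w` is in `A` at all times in `mks l`, otherwise `0` -/
def inA (A : Set SL(2, ℝ)) (l : List ℕ) (w : ℕ → SL(2, ℝ)) : ENNReal := {w : ℕ → SL(2, ℝ) | ∀ j ∈ mks l, w j ∈ A}.indicator (fun _ => 1) w

/-- the weight of a path: the product of the step kernels if it is in `A` at all times in `mks l`, otherwise `0` -/
def wgt (u : SL(2, ℝ) → ℂ) (t : ℝ) (A : Set SL(2, ℝ)) (l : List ℕ) (w : ℕ → SL(2, ℝ)) : ℂ :=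
  {w : ℕ → SL(2, ℝ) | ∀ j ∈ mks l, w j ∈ A}.indicator (fun w => ∏ j ∈ Finset.range (nst l), u (ic t w j)) w

/-- the majorant of the word kernel -/
def wdE (m : SL(2, ℝ) → ENNReal) (t : ℝ) (A : Set SL(2, ℝ)) : List ℕ → SL(2, ℝ) → SL(2, ℝ) → ENNReal
  | [] => fun _ _ => 0
  | [n] => fun g h => A.indicator (fun _ => 1) g * mc m t n g h * A.indicator (fun _ => 1) h
  | n :: k :: l => fun g h => ∫⁻ p, A.indicator (fun _ => 1) g * mc m t n g p * wdE m t A (k :: l) p h ∂mG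

/-- the step kernels of a word: indicator functions of `A` are inserted at the times in `mks l` -/
def sW {E : Type} [MulZeroOneClass E] (A : Set SL(2, ℝ)) (l : List ℕ) (s : SL(2, ℝ) → SL(2, ℝ) → E) (j : ℕ) (g h : SL(2, ℝ)) : E :=
  (if j ∈ mks l then A.indicator (fun _ => 1) g else 1) * s g h * (if j + 1 = nst l then A.indicator (fun _ => 1) h else 1)

/-- **Row MKS** (short; pure lists). `mks l` starts with `0`, ends with `nst l`, the other elements are `< nst l`; `j ∈ mks (n :: l)` iff `j = 0` or `j = i + (n + 1)` with `i ∈ mks l`. So for `j ≤ n`: `sW A (n :: k :: l) s j = (if j = 0 then 1_A else 1) * s` and `sW A (n :: k :: l) s (n + 1 + j) = sW A (k :: l) s j`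
(`nst (n :: l) = n + 1 + nst l`). The product: every `j ∈ mks l`, `j < nst l` gives the factor `1_A (w j)`, the last step gives `1_A (w (nst l))` (induction on `l` or: both sides are `0` if some `w j ∉ A`, otherwise all inserted factors are `1`). -/
def MKS_stmt : Prop := (∀ l : List ℕ, 0 ∈ mks l ∧ nst l ∈ mks l ∧ (∀ j ∈ mks l, j ≤ nst l) ∧ (mks l).length = l.length + 1) ∧
  (∀ l : List ℕ, l ≠ [] → 1 ≤ nst l) ∧
  (∀ (A : Set SL(2, ℝ)) (s : SL(2, ℝ) → SL(2, ℝ) → ENNReal) (n : ℕ) (l : List ℕ), l ≠ [] → (∀ j ≤ n, sW A (n :: l) s j = fun g h => (if j = 0 then A.indicator (fun _ => 1) g else 1) * s g h) ∧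
    ∀ j, sW A (n :: l) s (n + 1 + j) = sW A l s j) ∧
  (∀ (A : Set SL(2, ℝ)) (s : SL(2, ℝ) → SL(2, ℝ) → ℂ) (n : ℕ) (l : List ℕ), l ≠ [] → (∀ j ≤ n, sW A (n :: l) s j = fun g h => (if j = 0 then A.indicator (fun _ => 1) g else 1) * s g h) ∧
    ∀ j, sW A (n :: l) s (n + 1 + j) = sW A l s j) ∧
  (∀ (A : Set SL(2, ℝ)) (m : SL(2, ℝ) → ENNReal) (t : ℝ) (l : List ℕ) (w : ℕ → SL(2, ℝ)), l ≠ [] →
    ∏ j ∈ Finset.range (nst l), sW A l (fun g h => m ((g * aM t)⁻¹ * h)) j (w j) (w (j + 1)) = inA A l w * ∏ j ∈ Finset.range (nst l), m (ic t w j)) ∧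
  ∀ (A : Set SL(2, ℝ)) (V : ℍ → ℝ) (u : SL(2, ℝ) → ℂ) (κ t : ℝ) (l : List ℕ) (w : ℕ → SL(2, ℝ)), l ≠ [] →
    ∏ j ∈ Finset.range (nst l), sW A l (stK V κ t u) j (w j) (w (j + 1)) = Complex.exp (((TH V κ t (nst l) (w 0) (ic t w) : ℝ) : ℂ) * Complex.I) * wgt u t A l w

/-- **Row WDE** (majorants of words; short-medium; from UNE, CAE, MKS, VXI). `mc m t n = pM n (fun _ g h => m ((g * aM t)⁻¹ * h))` (induction; the first part is UNE for it). `wdE m t A l = pM (nst l - 1) (sW A l ..)` by induction on `l` (CAE, MKS; `pM a s` depends only on `s j`, `j ≤ a`), then UNE and MKS. -/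
def WDE_stmt : Prop := ∀ (m : SL(2, ℝ) → ENNReal) (t : ℝ), Measurable m →
  (∀ n, Measurable (Function.uncurry (mc m t n)) ∧ ∀ g h : SL(2, ℝ), mc m t n g h = ∫⁻ v, ∏ j ∈ Finset.range (n + 1), m (ic t (vx g h v) j) ∂mP n) ∧
  ∀ (A : Set SL(2, ℝ)) (l : List ℕ), MeasurableSet A → l ≠ [] → Measurable (Function.uncurry (wdE m t A l)) ∧
    ∀ g h : SL(2, ℝ), wdE m t A l g h = ∫⁻ v, inA A l (vx g h v) * ∏ j ∈ Finset.range (nst l), m (ic t (vx g h v) j) ∂mP (nst l - 1)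

/-- **Row THL** (the phases; short; from VXI, RS: GLC). `V` is continuous; `th` is linear in `V` (`intervalIntegral.integral_finset_sum`, all integrands are continuous) and continuous in `g` (`intervalIntegral.continuous_parametric_intervalIntegral_of_continuous'`). `TH V κ t N (w 0) (ic t w) = Σ_(j<N) th V κ t (w j)` by VXI. -/
def THL_stmt : Prop := ∀ (Γ : Subgroup SL(2, ℝ)) (J : ℕ) (χ : Fin J → ℍ → ℝ), (∀ j, QU.Inv Γ (χ j)) → (∀ ξ : Fin J → ℝ, QU.Inv Γ (VV χ ξ)) ∧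
  (∀ (j : Fin J) (κ t : ℝ), Continuous (th (χ j) κ t)) ∧
  (∀ (j : Fin J) (κ t : ℝ) (N n : ℕ), Continuous fun p : (SL(2, ℝ) × SL(2, ℝ)) × (Fin n → SL(2, ℝ)) => TH (χ j) κ t N p.1.1 (ic t (vx p.1.1 p.1.2 p.2))) ∧
  (∀ (ξ : Fin J → ℝ) (κ t : ℝ) (g : SL(2, ℝ)), th (VV χ ξ) κ t g = ∑ j, ξ j * th (χ j) κ t g) ∧
  ∀ (ξ : Fin J → ℝ) (κ t : ℝ) (N : ℕ) (g : SL(2, ℝ)) (b : ℕ → SL(2, ℝ)), TH (VV χ ξ) κ t N g b = ∑ j, ξ j * TH (χ j) κ t N g b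

/-- **Row WDK** (words; short-medium; from CAK, UNK, MKS, VXI, KPS). `itK V κ t u n = pK n (fun _ => stK V κ t u)` by induction. `wdK V κ t u A l = pK (nst l - 1) (sW A l (stK ..))` by induction on `l` (CAK, MKS; the inserted indicator functions keep `GKer` since `A` is measurable and invariant; `pK a s` depends only on `s j`, `j ≤ a`).
UNK and MKS (last part). -/
def WDK_stmt : Prop := ∀ (Γ : Subgroup SL(2, ℝ)) (F : Set ℍ) (V : ℍ → ℝ) (κ t : ℝ) (u : SL(2, ℝ) → ℂ) (A : Set SL(2, ℝ)) (l : List ℕ), QU.SurfaceGroup Γ → QU.NiceDom Γ F → QU.Inv Γ V → Measurable u →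
  (∃ B : ℝ, ∀ b, ‖u b‖ ≤ B) → (∃ D : ℝ, ∀ b, u b ≠ 0 → ∀ i j, |b.1 i j| ≤ D) → MeasurableSet A → (∀ (γ : Γ) (g : SL(2, ℝ)), (γ : SL(2, ℝ)) * g ∈ A ↔ g ∈ A) → l ≠ [] →
    ∀ g h : SL(2, ℝ), wdK V κ t u A l g h =
      ∫ v, Complex.exp (((TH V κ t (nst l) g (ic t (vx g h v)) : ℝ) : ℂ) * Complex.I) * wgt u t A l (vx g h v) ∂mP (nst l - 1)

/-- the space of the pairs (element of `Γ`, inner vertices of a path of the word `l`) -/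
abbrev Om (Γ : Subgroup SL(2, ℝ)) (l : List ℕ) : Type := Γ × (Fin (nst l - 1) → SL(2, ℝ))

/-- its measure -/
def mO (Γ : Subgroup SL(2, ℝ)) (l : List ℕ) : Measure (Om Γ l) := (Measure.count : Measure Γ).prod (mP (nst l - 1))

/-- the path of the element `q` from `g` to `γ h` -/
def vo {Γ : Subgroup SL(2, ℝ)} {l : List ℕ} (g h : SL(2, ℝ)) (q : Om Γ l) : ℕ → SL(2, ℝ) := vx g ((q.1 : SL(2, ℝ)) * h) q.2

/-- **Row PIN** (the kernel on `Γ \ G`; medium; from WDK, THL, WDE, VXI, KPG, QU.DOB, RS: GMG). `Γ` is countable and discrete as a measurable space (`DiscreteMeasurableSpace`), so `Measure.count` is σ-finite and integrals for it are sums. `perK = Σ_γ wdK g (γh)` (finitely many terms are not `0`: finite range, proper discontinuity as in KPG) and WDK.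
Integrability over `Om`: for the finitely many `γ` with `wdK`-paths (`wgt ≠ 0` implies that the distance of `g•I` and `γh•I` is `≤ nst l (D' + |t|)`) the function is bounded with support in a set of finite measure (as in UNK). Joint measurability in `(ξ, g, h)`: the integrand is measurable in `((ξ, g, h), q)`;
`StronglyMeasurable.integral_prod_right'`. -/
def PIN_stmt : Prop := ∀ (Γ : Subgroup SL(2, ℝ)) (F : Set ℍ) (J : ℕ) (χ : Fin J → ℍ → ℝ) (κ t : ℝ) (u : SL(2, ℝ) → ℂ) (A : Set SL(2, ℝ)) (l : List ℕ), QU.SurfaceGroup Γ → QU.NiceDom Γ F →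
  (∀ j, QU.Inv Γ (χ j)) → Measurable u → (∃ B : ℝ, ∀ b, ‖u b‖ ≤ B) → (∃ D : ℝ, ∀ b, u b ≠ 0 → ∀ i j, |b.1 i j| ≤ D) → MeasurableSet A → (∀ (γ : Γ) (g : SL(2, ℝ)), (γ : SL(2, ℝ)) * g ∈ A ↔ g ∈ A) → l ≠ [] →
    SigmaFinite (mO Γ l) ∧ Countable Γ ∧
    (∀ g h : SL(2, ℝ), Measurable (fun q : Om Γ l => wgt u t A l (vo g h q)) ∧ Measurable (fun (q : Om Γ l) (j : Fin J) => TH (χ j) κ t (nst l) g (ic t (vo g h q)))) ∧
    (∀ (ξ : Fin J → ℝ) (g h : SL(2, ℝ)), perK Γ (wdK (VV χ ξ) κ t u A l) g h =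
      ∫ q, Complex.exp (((∑ j, ξ j * TH (χ j) κ t (nst l) g (ic t (vo g h q)) : ℝ) : ℂ) * Complex.I) * wgt u t A l (vo g h q) ∂mO Γ l) ∧
    Measurable fun p : (Fin J → ℝ) × (SL(2, ℝ) × SL(2, ℝ)) => perK Γ (wdK (VV χ p.1) κ t u A l) p.2.1 p.2.2

/-- **Row UNL** (unfolding for `[0, ∞]`; short-medium; from RS: GLI, GRI, GFD, QU.DOB). `dG F` is a fundamental domain for the left action of `Γ` on `SL(2, ℝ)` (`(γ g) • I = γ • (g • I)`, `NiceDom.uniq`): `IsFundamentalDomain.lintegral_eq_tsum'`, `lintegral_tsum`, reindex by the inverse. -/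
def UNL_stmt : Prop := ∀ (Γ : Subgroup SL(2, ℝ)) (F : Set ℍ), QU.SurfaceGroup Γ → QU.NiceDom Γ F →
  (∀ f : SL(2, ℝ) → ENNReal, Measurable f → ∫⁻ h in dG F, ∑' γ : Γ, f ((γ : SL(2, ℝ)) * h) ∂mG = ∫⁻ h, f h ∂mG) ∧
  ∀ (f : SL(2, ℝ) → ENNReal) (k : SL(2, ℝ)), Measurable f → ∫⁻ h, f (k * h) ∂mG = ∫⁻ h, f h ∂mG ∧ ∫⁻ h, f (h * k) ∂mG = ∫⁻ h, f h ∂mG

/-- **Row EH1** (the mean of `|perK|²` at a point; medium; from QMB, PIN, WDE, VXI). QMB for `Ω = Om Γ l`, `ν = mO Γ l`, `w = wgt u t A l (vo g h q)`, `M(q) = inA A l (vo g h q) * ∏ m (ic t (vo g h q) j)`, `x_j(q) = TH (χ j) κ t N g (ic t (vo g h q))`, `N = nst l`; `∫⁻ M = Σ_γ wdE g (γh) ≤ Σ_γ mc m t (N - 1) g (γh) ≤ S < ⊤`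
(`lintegral_prod`, `lintegral_count`, WDE, `inA ≤ 1`). Let `q = (γ, v)` be fixed with `M(q) ≠ 0`. Then `∫⁻ M(q') und1 dν(q') ≤ Σ_γ' 1[γ' γ⁻¹ ∈ B] ∫⁻ ∏ m(ic t (vo g h (γ', v')) j) dv' ≤ K Mx`, where `B` = the set in the hypothesis `hK` for `g`, `γ h` and `b = ic t (vo g h q)`: if `M(q') und1 ≠ 0` then `γ' h = (γ' γ⁻¹) (γ h)`
and `b' = ic t (vo g h q')` shows `γ' γ⁻¹ ∈ B` (VXI: `pth t g b' N = γ' h`; `m (b' j) ≠ 0` as the product is not `0`; `und1 ≠ 0` is `Und`). And `∫⁻ M(q') (9/10)^nc dν(q') ≤ (9/10)^nc S`. -/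
def EH1_stmt : Prop := ∀ (Γ : Subgroup SL(2, ℝ)) (F : Set ℍ) (J nc K : ℕ) (χ : Fin J → ℍ → ℝ) (κ t : ℝ) (u : SL(2, ℝ) → ℂ) (m : SL(2, ℝ) → ENNReal) (A : Set SL(2, ℝ)) (l : List ℕ) (Mx S : ENNReal),
  QU.SurfaceGroup Γ → QU.NiceDom Γ F → (∀ j, QU.Inv Γ (χ j)) → Measurable u → (∃ B : ℝ, ∀ b, ‖u b‖ ≤ B) → (∃ D : ℝ, ∀ b, u b ≠ 0 → ∀ i j, |b.1 i j| ≤ D) → MeasurableSet A →
  (∀ (γ : Γ) (g : SL(2, ℝ)), (γ : SL(2, ℝ)) * g ∈ A ↔ g ∈ A) → l ≠ [] → Measurable m → (∀ b, ‖u b‖ₑ ≤ m b) → S ≠ ⊤ →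
  (∀ g h : SL(2, ℝ), mc m t (nst l - 1) g h ≤ Mx) → (∀ g h : SL(2, ℝ), ∑' γ : Γ, mc m t (nst l - 1) g ((γ : SL(2, ℝ)) * h) ≤ S) →
  (∀ (g h : SL(2, ℝ)) (b : ℕ → SL(2, ℝ)), (∀ j < nst l, m (b j) ≠ 0) → pth t g b (nst l) = h →
    {γ : Γ | ∃ b' : ℕ → SL(2, ℝ), (∀ j < nst l, m (b' j) ≠ 0) ∧ pth t g b' (nst l) = (γ : SL(2, ℝ)) * h ∧ Und χ κ t (nst l) nc g g b b'}.encard ≤ K) →
    ∀ g h : SL(2, ℝ), ∫⁻ ξ, ‖perK Γ (wdK (VV χ ξ) κ t u A l) g h‖ₑ ^ 2 ∂PJ J ≤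
      (K * Mx + ENNReal.ofReal ((9 / 10) ^ nc) * S) * ∑' γ : Γ, wdE m t A l g ((γ : SL(2, ℝ)) * h)

/-- **Row EHS** (short-medium; from EH1, PIN, UNL, WDE, RS: GMG). Tonelli (joint measurability from PIN; `PJ J` is a probability measure, SNC): `∫⁻ξ ∫⁻g ∫⁻h = ∫⁻g ∫⁻h ∫⁻ξ`; EH1; UNL for `f = wdE m t A l g`. -/
def EHS_stmt : Prop := ∀ (Γ : Subgroup SL(2, ℝ)) (F : Set ℍ) (J nc K : ℕ) (χ : Fin J → ℍ → ℝ) (κ t : ℝ) (u : SL(2, ℝ) → ℂ) (m : SL(2, ℝ) → ENNReal) (A : Set SL(2, ℝ)) (l : List ℕ) (Mx S : ENNReal),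
  QU.SurfaceGroup Γ → QU.NiceDom Γ F → (∀ j, QU.Inv Γ (χ j)) → Measurable u → (∃ B : ℝ, ∀ b, ‖u b‖ ≤ B) → (∃ D : ℝ, ∀ b, u b ≠ 0 → ∀ i j, |b.1 i j| ≤ D) → MeasurableSet A →
  (∀ (γ : Γ) (g : SL(2, ℝ)), (γ : SL(2, ℝ)) * g ∈ A ↔ g ∈ A) → l ≠ [] → Measurable m → (∀ b, ‖u b‖ₑ ≤ m b) → S ≠ ⊤ →
  (∀ g h : SL(2, ℝ), mc m t (nst l - 1) g h ≤ Mx) → (∀ g h : SL(2, ℝ), ∑' γ : Γ, mc m t (nst l - 1) g ((γ : SL(2, ℝ)) * h) ≤ S) →
  (∀ (g h : SL(2, ℝ)) (b : ℕ → SL(2, ℝ)), (∀ j < nst l, m (b j) ≠ 0) → pth t g b (nst l) = h →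
    {γ : Γ | ∃ b' : ℕ → SL(2, ℝ), (∀ j < nst l, m (b' j) ≠ 0) ∧ pth t g b' (nst l) = (γ : SL(2, ℝ)) * h ∧ Und χ κ t (nst l) nc g g b b'}.encard ≤ K) →
    ∫⁻ ξ, ∫⁻ g in dG F, ∫⁻ h in dG F, ‖perK Γ (wdK (VV χ ξ) κ t u A l) g h‖ₑ ^ 2 ∂mG ∂mG ∂PJ J ≤
      (K * Mx + ENNReal.ofReal ((9 / 10) ^ nc) * S) * ∫⁻ g in dG F, ∫⁻ h, wdE m t A l g h ∂mG ∂mG

/-- **Row CHN** (the chain of blocks; medium; from UNL, WDE). `Ψ_l(g) = ∫⁻ h, wdE m t A l g h` is measurable and invariant: `mc m t n (γg) (γh) = mc m t n g h` and `wdE .. (γg) (γh) = wdE .. g h` by induction (left invariance, UNL), so `Ψ_l(γg) = ∫⁻ h, wdE (γg) (γh) = Ψ_l(g)`. UNL: for `l = [n]`: `Ψ(g) = 1_A(g) ∫⁻_(h ∈ dG F) Σ_γ mc m t n g (γh) 1_A(γh) ≤ 1_A(g) Sn(n) mG(dG F ∩ A)`;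
for `n :: l`: `Ψ_(n :: l)(g) = 1_A(g) ∫⁻ p, mc m t n g p * Ψ_l(p)` (Tonelli) `= 1_A(g) ∫⁻_(p ∈ dG F) (Σ_γ mc m t n g (γp)) Ψ_l(p) ≤ 1_A(g) Sn(n) ∫⁻_(dG F) Ψ_l`. Integrate over `g ∈ dG F`, induction. -/
def CHN_stmt : Prop := ∀ (Γ : Subgroup SL(2, ℝ)) (F : Set ℍ) (t : ℝ) (m : SL(2, ℝ) → ENNReal) (A : Set SL(2, ℝ)) (l : List ℕ) (Sn : ℕ → ENNReal), QU.SurfaceGroup Γ → QU.NiceDom Γ F → Measurable m → MeasurableSet A →
  (∀ (γ : Γ) (g : SL(2, ℝ)), (γ : SL(2, ℝ)) * g ∈ A ↔ g ∈ A) → l ≠ [] → (∀ n ∈ l, ∀ g h : SL(2, ℝ), ∑' γ : Γ, mc m t n g ((γ : SL(2, ℝ)) * h) ≤ Sn n) →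
    ∫⁻ g in dG F, ∫⁻ h, wdE m t A l g h ∂mG ∂mG ≤ (l.map Sn).prod * mG (dG F ∩ A) ^ (l.length + 1)

/-! ## The final estimate -/

/-- **Row CBE** (short; pure). `cube J` is the product of the intervals `[-1, 1]`: `Real.volume_Icc_pi` or `Measure.pi_pi`; `Measure.restrict_pi_pi`; the measure `(2⁻¹)^J • volume.restrict (cube J)` has the right values on rectangles: `Measure.pi_eq`. -/
def CBE_stmt : Prop := ∀ J : ℕ, MeasurableSet (cube J) ∧ volume (cube J) = 2 ^ J ∧ (volume : Measure (Fin J → ℝ)).restrict (cube J) = volume (cube J) • PJ J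

/-- The hypotheses of WXN at the frequency `R`. `l` is the word, `K` counts the undetected classes. -/
structure WH (Γ : Subgroup SL(2, ℝ)) (F : Set ℍ) (N L : ℕ) (η ε θ B C1 C' C R κ : ℝ) (J nc K : ℕ) (χ : Fin J → ℍ → ℝ) (u : SL(2, ℝ) → ℂ) (A : Set SL(2, ℝ)) (l : List ℕ) : Prop where
  inv : ∀ j, QU.Inv Γ (χ j)
  meas : Measurable u
  le : ∀ b, ‖u b‖ₑ ≤ mj C η ε R b
  measA : MeasurableSet A
  invA : ∀ (γ : Γ) (g : SL(2, ℝ)), (γ : SL(2, ℝ)) * g ∈ A ↔ g ∈ A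
  volA : mG (dG F ∩ A) ≤ ENNReal.ofReal (C1 * R ^ (-(θ / 8)))
  nc1 : ((9 : ℝ) / 10) ^ nc ≤ R ^ (-(2 * N + B + 10))
  len : l.length = L
  stp : ∀ n ∈ l, 9 ≤ n + 1
  sum : nst l ≤ N
  mcv : ∀ n < N, ∀ g h : SL(2, ℝ), mc (mj C η ε R) (tau R) n g h ≤ ENNReal.ofReal (C' * R ^ (1 - (n + 1) / 16 + η + n * ε))
  blk : ∀ n : ℕ, 9 ≤ n + 1 → n < N → ∀ g h : SL(2, ℝ), ∑' γ : Γ, mc (mj C η ε R) (tau R) n g ((γ : SL(2, ℝ)) * h) ≤ ENNReal.ofReal (C' * R ^ ((n + 1) / 16 + η + (n + 1) * ε))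
  cnt : ∀ (g h : SL(2, ℝ)) (b : ℕ → SL(2, ℝ)), (∀ j < nst l, b j ∈ Bx C η ε R) → pth (tau R) g b (nst l) = h →
    {γ : Γ | ∃ b' : ℕ → SL(2, ℝ), (∀ j < nst l, b' j ∈ Bx C η ε R) ∧ pth (tau R) g b' (nst l) = (γ : SL(2, ℝ)) * h ∧ Und χ κ (tau R) (nst l) nc g g b b'}.encard ≤ K
  K1 : (K : ℝ) ≤ R ^ (1 / 8 : ℝ)

/-- **Row WXN** (short-medium; from EHS, CHN). `m = mj C η ε R` is measurable (`Bx` is closed), bounded, `m b ≠ 0` implies `b ∈ Bx`; `u` is bounded and `u b ≠ 0` implies `|b.1 i j| ≤ 3`. Let `N' = nst l ≤ N`, `N' ≥ 9`. EHS with `Mx`, `S` from `mcv`, `blk` (`n = N' - 1`), CHN with `Sn` from `blk`; `∏ Sn = C'^L R^(N'/16 + L η + N' ε)`. So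
`K Mx ∏ Sn ≤ C'^(L+1) R^(1/8 + 1 + (L+1) η + 2 N' ε) ≤ C'^(L+1) R^(11/8)`, `(9/10)^nc S ∏ Sn ≤ C'^(L+1) R^(-(2N+B+10) + N'/8 + (L+1) η + 2 N' ε) ≤ C'^(L+1)`, `mG(..)^(L+1) ≤ C1^(L+1) R^(-(L+1) θ/8) ≤ C1^(L+1) R^(-(B+5))`. Total `≤ 2 (C' C1)^(L+1) R^(11/8 - (B+5)) ≤ R^(-(B+3))` if `2 (C' C1)^(L+1) ≤ R^(1/2)`. -/
def WXN_stmt : Prop := ∀ (N L : ℕ) (η ε θ B C1 C' : ℝ), 1 ≤ L → 0 < η → 0 < ε → (L + 1) * η + 2 * N * ε ≤ 1 / 4 → 0 < θ → 0 ≤ B → 1 ≤ C1 → 1 ≤ C' → B + 5 ≤ (L + 1) * θ / 8 → ∃ R0 : ℝ, 1 ≤ R0 ∧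
  ∀ (Γ : Subgroup SL(2, ℝ)) (F : Set ℍ) (C R κ : ℝ) (J nc K : ℕ) (χ : Fin J → ℍ → ℝ) (u : SL(2, ℝ) → ℂ) (A : Set SL(2, ℝ)) (l : List ℕ), QU.SurfaceGroup Γ → QU.NiceDom Γ F → R0 ≤ R → 1 ≤ C →
    WH Γ F N L η ε θ B C1 C' C R κ J nc K χ u A l →
      ∫⁻ ξ, ∫⁻ g in dG F, ∫⁻ h in dG F, ‖perK Γ (wdK (VV χ ξ) κ (tau R) u A l) g h‖ₑ ^ 2 ∂mG ∂mG ∂PJ J ≤ ENNReal.ofReal (R ^ (-(B + 3)))

/-- **Row PAR** (the parameters; short-medium; pure asymptotics). `nc = ⌈M1 log R / log (10/9)⌉ ≤ 10 M1 log R + 1`. `x = log R → ∞`. `R^(-η/4) = e^(-η x/4) ≤ x^(-a)`. `x^(-a)/(8 ρ) ≥ x^(-a + 2a + 2)/8 = x^(a+2)/8`, and `nc + C' (N' x/8 + 1) x^a ≤ C'' x^(a+1)`.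
Last: the logarithm is `(N' (x/8)/((a/2) log x) + 3) log (C' (N' x/8 + 1))`, and `log (C' (N x/8 + 1)) ≤ 2 log x` for large `x`: `≤ N' x/(2a) + 6 log x ≤ x/16 + x/16` as `a ≥ 8 N'` (`log (1/x^(-a)) = a log x > 0`). -/
def PAR_stmt : Prop := ∀ (N : ℕ) (η M1 C' ρ10 a : ℝ), 1 ≤ N → 0 < η → 1 ≤ M1 → 1 ≤ C' → 0 < ρ10 → 8 * N ≤ a → ∃ R0 : ℝ, 3 ≤ R0 ∧ ∀ R ρ : ℝ, R0 ≤ R → 0 < ρ → ρ ≤ (Real.log R) ^ (-(2 * a + 2)) →
  ∃ nc : ℕ, ((9 : ℝ) / 10) ^ nc ≤ R ^ (-M1) ∧ R ^ (-(η / 4)) ≤ (Real.log R) ^ (-a) ∧ (Real.log R) ^ (-a) ≤ ρ10 ∧ ∀ N' : ℕ, 1 ≤ N' → N' ≤ N →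
    nc + C' * (N' * tau R + 1) / (Real.log R) ^ (-a) ≤ (Real.log R) ^ (-a) / (8 * ρ) ∧
    (C' * (N' * tau R + 1)) ^ (N' * tau R / (Real.log (1 / (Real.log R) ^ (-a)) / 2) + 3) ≤ R ^ (1 / 8 : ℝ)

/-- **Row UTM** (the truncated step kernel; short; from UKB, GKD, CWB). `uk` is a constant times `gk R (cw ..) (cw ..)`, continuous (GKD with `TB (1/4)` from CWB: `w0 R, w1 R, R^(-η) ≤ 1` for `R ≥ 1`); `Bx` is closed. `mj` is `ofReal (C R^(15/16+η))` on `Bx`, `ut = 0` off `Bx`. -/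
def UTM_stmt : Prop := ∀ α β : ℝ → ℝ, BA (1 / 8) α → BB (1 / 8) β → ∀ η ε : ℝ, 0 < η → η ≤ 1 / 20 → 0 < ε → ε ≤ 1 / 20 → ∃ C0 R0 : ℝ, 1 ≤ C0 ∧ 1 ≤ R0 ∧
  ∀ C R : ℝ, C0 ≤ C → R0 ≤ R → Measurable (ut β α C η ε R) ∧ Measurable (mj C η ε R) ∧ ∀ b, ‖ut β α C η ε R b‖ₑ ≤ mj C η ε R b

/-- **Row WEX** (= `WEX_stmt` of SpecU; short-medium; from WXN, PAR, CBE, UTM, MCV, BLK, CNT). `η = ε = 1/(100 (N + L + 2))`, `C2 = C0` of UTM. Given `C ≥ C2`: `C'` = the maximum of `1`, the constants of MCV and BLK for `N` and of CNT for all `N' ≤ N`; `ρ10` = the minimum of the ones of CNT for `1 ≤ N' ≤ N`; `a = 8 N + 1`; `M1 = 2 N + B + 10`; `R0` = the maximum of all. Given the data: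
`nc` from PAR, `ρ1 = (log R)^(-a)`, `N' = nst l` (`9 ≤ N' ≤ N`). WH for `u = ut β α C η ε R`, `κ = K`, `C1` replaced by `max C1 1`: `cnt` from CNT for `N'` (its constants are `≤ C'`, `≥ ρ10`, so its hypothesis follows, and its bound is `≤ (C' (N' τ + 1))^(..)` as the base is increasing and the exponent positive) `≤ R^(1/8)` (PAR); `K = ` the floor of `R^(1/8)`.
WXN and CBE (`∫⁻ in cube = volume (cube J) * ∫⁻ ∂PJ J`). If `N = 0` or `N < 9` there is no such `l` (`L ≥ 1`). -/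
def WEX_row : Prop := WEX_stmt

end

end Pool.Agent.RPQ
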